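import Pool.Agent.Helper32.MainInd

/-!
Assembly: bounds for the ordered Ramsey number of powers of monotone paths.
-/

set_option autoImplicit false

open Finset

namespace Pool.Agent.Helper32.PowPath

variable {V : Type} [LinearOrder V]

lemma split_low (n : ℕ) : ∀ C : Finset V, n ≤ C.card → ∃ C1 C2, C1 ⊆ C ∧ C2 ⊆ C ∧ C1.card = n ∧
    C2.card = C.card - n ∧ ∀ u ∈ C1, ∀ v ∈ C2, u < v := by
  classical
  induction n with
  | zero =>
    intro C _
    exact ⟨∅, C, empty_subset _, Subset.refl _, card_empty, by simp, by simp⟩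
  | succ n ih =>
    intro C hC
    have hne : C.Nonempty := by rw [← card_pos]; omega
    have hv := min'_mem C hne
    obtain ⟨C1, C2, h1, h2, h3, h4, h5⟩ := ih (C.erase (C.min' hne)) (by
      rw [card_erase_of_mem hv]; omega)
    rw [card_erase_of_mem hv] at h4
    refine ⟨insert (C.min' hne) C1, C2, ?_, h2.trans (erase_subset _ _), ?_, by omega, ?_⟩
    · intro w hw
      rw [mem_insert] at hw
      rcases hw with rfl | hw
      · exact hv
      · exact mem_of_mem_erase (h1 hw)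
    · rw [card_insert_of_notMem, h3]
      intro h
      exact (mem_erase.1 (h1 h)).1 rfl
    · intro u hu v hv'
      rw [mem_insert] at hu
      rcases hu with rfl | hu
      · have := mem_erase.1 (h2 hv')
        exact lt_of_le_of_ne (min'_le _ _ this.2) (Ne.symm this.1)
      · exact h5 u hu v hv'

/-- A clique, enumerated in increasing order, is a path. -/
lemma clique_path [Nonempty V] {E : V → V → Prop} (t : ℕ) (T : Finset V) (hT : ∀ u ∈ T, ∀ v ∈ T, u < v → E u v) :
    ∃ f, IsPath E t T T.card f := by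
  classical
  let o := T.orderEmbOfFin (rfl : T.card = T.card)
  have hlt : ∀ i j (hi : i < T.card) (hj : j < T.card), i < j → o ⟨i, hi⟩ < o ⟨j, hj⟩ :=
    fun i j hi hj hij => o.strictMono (by simpa using hij)
  refine ⟨fun i => if h : i < T.card then o ⟨i, h⟩ else Classical.arbitrary V, ?_, ?_, ?_⟩
  · intro i hi
    simp only [hi, dif_pos]
    exact orderEmbOfFin_mem T rfl _
  · intro i j hij hj
    have hi : i < T.card := hij.trans hj
    simp only [hi, hj, dif_pos]
    exact hlt i j hi hj hij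
  · intro i j hij hj _
    have hi : i < T.card := hij.trans hj
    simp only [hi, hj, dif_pos]
    exact hT _ (orderEmbOfFin_mem T rfl _) _ (orderEmbOfFin_mem T rfl _) (hlt i j hi hj hij)

lemma hasPath_of_clique [Nonempty V] {E : V → V → Prop} (t : ℕ) {X T : Finset V} (hTX : T ⊆ X)
    (hT : ∀ u ∈ T, ∀ v ∈ T, u < v → E u v) : HasPath E t X T.card := by
  obtain ⟨f, hf⟩ := clique_path t T hT
  exact ⟨f, hf.mono hTX (le_refl _)⟩

/-- Labels of a large clique. -/
lemma label_clique {E : V → V → Prop} {t h1 h2 : ℕ} (ht1 : t ≤ h1) (ht2 : t ≤ h2)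
    (φ : Finset V → Finset V → ℕ) (X : Finset V)
    (hφ : ∀ L R L' R', BC E h1 h2 L R → L ⊆ X → R ⊆ X → BC E h1 h2 L' R' → L' ⊆ X →
      R' ⊆ X → Link E t R L' → φ L R < φ L' R') :
    ∀ (r : ℕ) (C : Finset V), C ⊆ X → (∀ u ∈ C, ∀ v ∈ C, u < v → E u v) → C.card = (h1 + h2) * (r + 1) →
      ∃ L R, L ⊆ C ∧ R ⊆ C ∧ BC E h1 h2 L R ∧ r ≤ φ L R := by
  have hblock : ∀ C : Finset V, (∀ u ∈ C, ∀ v ∈ C, u < v → E u v) → C.card = h1 + h2 →
      ∃ L R, L ⊆ C ∧ R ⊆ C ∧ BC E h1 h2 L R := by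
    intro C hC hcard
    obtain ⟨L, R, g1, g2, g3, g4, g5⟩ := split_low h2 C (by omega)
    refine ⟨L, R, g1, g2, ⟨g3, by omega, g5, ?_, ?_, ?_⟩⟩
    · intro u hu v hv huv
      exact hC u (g1 hu) v (g1 hv) huv
    · intro u hu v hv huv
      exact hC u (g2 hu) v (g2 hv) huv
    · intro u hu v hv
      exact hC u (g1 hu) v (g2 hv) (g5 u hu v hv)
  intro r
  induction r with
  | zero =>
    intro C _ hC hcard
    obtain ⟨L, R, g1, g2, g3⟩ := hblock C hC (by simpa using hcard)
    exact ⟨L, R, g1, g2, g3, Nat.zero_le _⟩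
  | succ r ih =>
    intro C hCX hC hcard
    have e1 : (h1 + h2) * (r + 1 + 1) = (h1 + h2) * (r + 1) + (h1 + h2) := by ring
    obtain ⟨C1, C2, g1, g2, g3, g4, g5⟩ := split_low ((h1 + h2) * (r + 1)) C (by rw [hcard, e1]; omega)
    obtain ⟨L, R, k1, k2, k3, k4⟩ := ih C1 (g1.trans hCX) (fun u hu v hv => hC u (g1 hu) v (g1 hv)) g3
    obtain ⟨L', R', m1, m2, m3⟩ := hblock C2 (fun u hu v hv => hC u (g2 hu) v (g2 hv)) (by rw [g4, hcard, e1]; omega)
    refine ⟨L', R', m1.trans g2, m2.trans g2, m3, ?_⟩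
    have hlink : Link E t R L' := by
      refine ⟨fun u hu v hv => g5 u (k2 hu) v (m1 hv), ?_⟩
      obtain ⟨T, hT1, hT2⟩ := exists_subset_card_eq (s := R) (n := t) (by rw [k3.cardR]; exact ht1)
      obtain ⟨T', hT1', hT2'⟩ := exists_subset_card_eq (s := L') (n := t) (by rw [m3.cardL]; exact ht2)
      refine ⟨T, hT1, T', hT1', hT2, hT2', ?_⟩
      intro u hu v hv
      exact hC u (g1 (k2 (hT1 hu))) v (g2 (m1 (hT1' hv))) (g5 u (k2 (hT1 hu)) v (m1 (hT1' hv)))
    have := hφ L R L' R' k3 (k1.trans (g1.trans hCX)) (k2.trans (g1.trans hCX)) m3 (m1.trans (g2.trans hCX))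
      (m2.trans (g2.trans hCX)) hlink
    omega

lemma Lab.no_clique {E : V → V → Prop} {t h1 h2 : ℕ} (ht1 : t ≤ h1) (ht2 : t ≤ h2) {X : Finset V} {r : ℕ}
    (h : Lab E t h1 h2 (fun _ => X) r) (s : ℕ) (hs : (h1 + h2) * (r + 1) ≤ s) :
    ¬ ∃ C, C ⊆ X ∧ C.card = s ∧ ∀ u ∈ C, ∀ v ∈ C, u < v → E u v := by
  rintro ⟨C, hC1, hC2, hC3⟩
  obtain ⟨φ, g1, g2⟩ := h
  obtain ⟨C', hC'1, hC'2⟩ := exists_subset_card_eq (s := C) (n := (h1 + h2) * (r + 1)) (by omega)
  obtain ⟨L, R, k1, k2, k3, k4⟩ := label_clique ht1 ht2 φ X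
    (fun L R L' R' hb hL hR hb' hL' hR' hl => g2 0 0 L R L' R' hb hL hR hb' hL' hR' hl) r C'
    (hC'1.trans hC1) (fun u hu v hv => hC3 u (hC'1 hu) v (hC'1 hv)) hC'2
  have := g1 0 L R k3 (k1.trans (hC'1.trans hC1)) (k2.trans (hC'1.trans hC1))
  omega

/-- a set without long paths has few labels. -/
lemma lab_of_no_path [Nonempty V] {E : V → V → Prop} {t h1 h2 : ℕ} (ht : 1 ≤ t) (ht2 : t ≤ h2)
    {X : Finset V} {b : ℕ} (hb : ¬ HasPath E t X (b + 1)) : Lab E t h1 h2 (fun _ => X) (b + 1) := by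
  classical
  let Q : Finset V → ℕ → Prop := fun L k => t ≤ k ∧ ∃ f, IsPath E t X k f ∧ ∀ i, i < k → k ≤ i + t → f i ∈ L
  have hQb : ∀ L k, Q L k → k ≤ b := by
    rintro L k ⟨-, f, hf, -⟩
    by_contra hcon
    push Not at hcon
    exact hb (HasPath.mono ⟨f, hf⟩ (Subset.refl _) (by omega))
  refine ⟨fun L _ => Nat.findGreatest (Q L) b, ?_, ?_⟩
  · intro _ L R _ _ _
    have := Nat.findGreatest_le (P := Q L) b
    show Nat.findGreatest (Q L) b < b + 1
    omega
  · intro _ _ L R L' R' hbc hL hR hbc' hL' hR' hlink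
    show Nat.findGreatest (Q L) b < Nat.findGreatest (Q L') b
    -- a path exists with the last `t` vertices in `L`
    obtain ⟨T0, hT01, hT02⟩ := exists_subset_card_eq (s := L) (n := t) (by rw [hbc.cardL]; exact ht2)
    have hQt : Q L t := by
      obtain ⟨f, hf⟩ := clique_path t T0 (fun u hu v hv => hbc.clL u (hT01 hu) v (hT01 hv))
      rw [hT02] at hf
      refine ⟨le_refl _, f, hf.mono (hT01.trans hL) (le_refl _), ?_⟩
      intro i hi _
      exact hT01 (hf.1 i hi)
    have hspec : Q L (Nat.findGreatest (Q L) b) := Nat.findGreatest_spec (hQb L t hQt) hQt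
    set k := Nat.findGreatest (Q L) b with hk
    obtain ⟨hkt, f, hf, hfL⟩ := hspec
    obtain ⟨hlt, T, hT1, T', hT'1, hT2, hT'2, hTT'⟩ := hlink
    -- append T
    obtain ⟨g, hg⟩ := clique_path t T (fun u hu v hv => hbc.clR u (hT1 hu) v (hT1 hv))
    obtain ⟨g', hg'⟩ := clique_path t T' (fun u hu v hv => hbc'.clL u (hT'1 hu) v (hT'1 hv))
    rw [hT2] at hg
    rw [hT'2] at hg'
    have hflt : ∀ i, i < k → ∀ w, (∀ u ∈ L, u < w) → f i < w := by
      intro i hi w hw
      have h1' : f (k - 1) ∈ L := hfL (k - 1) (by omega) (by omega)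
      rcases Nat.lt_or_ge i (k - 1) with h | h
      · exact (hf.2.1 i (k - 1) h (by omega)).trans (hw _ h1')
      · have : i = k - 1 := by omega
        rw [this]; exact hw _ h1'
    have h1' := hf.append hg (by
      intro i hi j hj
      exact hflt i hi _ (fun u hu => hbc.lt u hu _ (hT1 (hg.1 j hj)))) (by
      intro i hi hit j hj
      exact hbc.clLR _ (hfL i hi hit) _ (hT1 (hg.1 j hj)))
    set f1 : ℕ → V := fun i => if i < k then f i else g (i - k) with hf1
    have hf1T : ∀ i, i < k + t → k ≤ i → f1 i ∈ T := by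
      intro i hi hki
      have : ¬ i < k := by omega
      simp only [hf1, this, if_false]
      exact hg.1 _ (by omega)
    have hf1lt : ∀ i, i < k + t → ∀ w, (∀ u ∈ T, u < w) → f1 i < w := by
      intro i hi w hw
      have h2' : f1 (k + t - 1) ∈ T := hf1T _ (by omega) (by omega)
      rcases Nat.lt_or_ge i (k + t - 1) with h | h
      · exact (h1'.2.1 i (k + t - 1) h (by omega)).trans (hw _ h2')
      · have : i = k + t - 1 := by omega
        rw [this]; exact hw _ h2'
    have h2' := h1'.append hg' (by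
      intro i hi j hj
      exact hf1lt i hi _ (fun u hu => hlt u (hT1 hu) _ (hT'1 (hg'.1 j hj)))) (by
      intro i hi hit j hj
      exact hTT' _ (hf1T i hi (by omega)) _ (hg'.1 j hj))
    have hQ' : Q L' (k + t + t) := by
      refine ⟨by omega, _, h2'.mono ?_ (le_refl _), ?_⟩
      · refine union_subset (union_subset (Subset.refl _) (hT1.trans hR)) (hT'1.trans hL')
      · intro i hi hit
        have : ¬ i < k + t := by omega
        simp only [this, if_false]
        exact hT'1 (hg'.1 _ (by omega))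
    have := Nat.le_findGreatest (hQb L' _ hQ') hQ'
    omega

/-- the sizes of the bicliques used. -/
def s1 (t t' : ℕ) : ℕ := 32 * t * t' ^ 2

/-- the sizes of the bicliques used. -/
def s2 (t t' : ℕ) : ℕ := 32 * t * t' ^ 2 * 2 ^ (s1 t t')

lemma sizes_ok (t t' : ℕ) (ht : 1 ≤ t) (ht' : 1 ≤ t') :
    ((t * s2 t t' + t * 2 ^ s1 t t' * s1 t t' : ℕ) : ℝ) / (s1 t t' * s2 t t') ≤ (1 / (4 * t')) ^ 2 := by
  have h1 : (0 : ℝ) < t := by exact_mod_cast ht
  have h2 : (0 : ℝ) < t' := by exact_mod_cast ht'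
  have e1 : (s1 t t' : ℝ) = 32 * t * t' ^ 2 := by unfold s1; push_cast; ring
  have e2 : (s2 t t' : ℝ) = 32 * t * t' ^ 2 * 2 ^ (s1 t t') := by unfold s2; push_cast; ring
  have h3 : (0 : ℝ) < 2 ^ (s1 t t') := by positivity
  push_cast
  rw [e2, e1]
  set p : ℝ := 2 ^ (s1 t t') with hp
  rw [div_le_iff₀ (by positivity)]
  apply le_of_eq
  field_simp
  ring

lemma s1_pos (t t' : ℕ) (ht : 1 ≤ t) (ht' : 1 ≤ t') : 0 < s1 t t' := by unfold s1; positivity

lemma s2_pos (t t' : ℕ) (ht : 1 ≤ t) (ht' : 1 ≤ t') : 0 < s2 t t' := by unfold s2; positivity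

lemma le_s1 (t t' : ℕ) (ht' : 1 ≤ t') : t ≤ s1 t t' := by
  unfold s1
  have : 1 ≤ t' ^ 2 := Nat.one_le_pow _ _ ht'
  nlinarith

lemma le_s2 (t t' : ℕ) (ht' : 1 ≤ t') : t ≤ s2 t t' := by
  unfold s2
  have h1 : 1 ≤ t' ^ 2 := Nat.one_le_pow _ _ ht'
  have h2 : 1 ≤ 2 ^ (s1 t t') := Nat.one_le_two_pow
  have h3 : t ≤ 32 * t * t' ^ 2 := by nlinarith
  nlinarith

/-- Step one: cliques against powers of paths. -/
lemma clique_vs_path (t : ℕ) (ht : 1 ≤ t) (a : ℝ) (ha : 1 < a) (s : ℕ) (hs : 2 ≤ s) :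
    ∃ A : ℝ, 0 < A ∧ ∀ (V : Type) [LinearOrder V] [Fintype V] [Nonempty V] (E : V → V → Prop)
      (X : Finset V), (¬ ∃ C, C ⊆ X ∧ C.card = s ∧ ∀ u ∈ C, ∀ v ∈ C, u < v → E u v) →
      ∀ b, ¬ HasPath (fun u v => ¬ E u v) t X (b + 1) → (X.card : ℝ) ≤ A * ((b : ℝ) + 2) ^ a := by
  obtain ⟨k, q, hk, hq, N1, N2⟩ := params a ha
  have ha0 : 0 < a := by linarith
  have hs1 : 1 ≤ s := by omega
  set S : ℕ := (s1 t s + s2 t s) * 2 ^ (k + 1) with hS
  set A : ℝ := max (q : ℝ) ((2 : ℝ) ^ (s + S)) with hA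
  have hA0 : 0 < A := lt_of_lt_of_le (by positivity) (le_max_right _ _)
  refine ⟨A * ((s : ℝ)) ^ a, by positivity, ?_⟩
  intro V _ _ _ E X0 hcl b hb
  have hnn : (fun u v : V => ¬ ¬ E u v) = E := by
    funext u v
    exact propext not_not
  have hclp : ∀ X, X ⊆ X0 → ¬ HasPath E s X s := by
    rintro X hX ⟨f, h1, h2, h3⟩
    apply hcl
    classical
    refine ⟨(range s).image f, ?_, ?_, ?_⟩
    · intro v hv
      rw [mem_image] at hv
      obtain ⟨i, hi, rfl⟩ := hv
      exact hX (h1 i (mem_range.1 hi))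
    · rw [card_image_of_injOn, card_range]
      intro i hi j hj hij
      rw [coe_range, Set.mem_Iio] at hi hj
      by_contra hne
      rcases lt_or_gt_of_ne hne with h | h
      · have := h2 i j h hj; rw [hij] at this; exact lt_irrefl _ this
      · have := h2 j i h hi; rw [hij] at this; exact lt_irrefl _ this
    · intro u hu v hv huv
      rw [mem_image] at hu hv
      obtain ⟨i, hi, rfl⟩ := hu
      obtain ⟨j, hj, rfl⟩ := hv
      rw [mem_range] at hi hj
      have hij : i < j := by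
        by_contra hcon
        rcases Nat.lt_or_ge j i with h | h
        · exact lt_asymm huv (h2 j i h hi)
        · have : i = j := by omega
          rw [this] at huv; exact lt_irrefl _ huv
      exact h3 i j hij hj (by omega)
  have hmain := main_induction (V := V) (fun u v => ¬ E u v) t s (s1 t s) (s2 t s) ht hs1
    (s1_pos t s ht hs1) (s2_pos t s ht hs1) (sizes_ok t s ht hs1) a A ha k q hk hq (le_max_left _ _) N1 N2 X0
    (by
      intro X hX r b' hr hLab hb'
      rcases X.eq_empty_or_nonempty with hXe | hXne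
      · rw [hXe]; simp; positivity
      have hb1 : 1 ≤ b' := by
        rcases Nat.eq_zero_or_pos b' with h0 | h0
        · exfalso; rw [h0] at hb'; exact hb' (hasPath_one hXne)
        · exact h0
      have hno := hLab.no_clique (le_s1 t s hs1) (le_s2 t s hs1) S (by
        rw [hS]; exact Nat.mul_le_mul_left _ (by omega))
      have hlt : X.card < 2 ^ (s + S) := by
        by_contra hcon
        push Not at hcon
        rcases ramsey E (s + S) s S rfl X hcon with ⟨C, c1, c2, c3⟩ | ⟨C, c1, c2, c3⟩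
        · exact hcl ⟨C, c1.trans hX, c2, c3⟩
        · exact hno ⟨C, c1, c2, c3⟩
      have h1' : (X.card : ℝ) ≤ A := by
        refine le_trans ?_ (le_max_right _ _)
        exact_mod_cast hlt.le
      have h2' : (1 : ℝ) ≤ (b' : ℝ) ^ a := Real.one_le_rpow (by exact_mod_cast hb1) ha0.le
      nlinarith)
    X0.card X0 (Subset.refl _) rfl (b + 1) (s - 1)
    (lab_of_no_path ht (le_s2 t s hs1) hb)
    (by
      rw [hnn, Nat.sub_add_cancel hs1]
      exact hclp X0 (Subset.refl _))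
  refine hmain.trans ?_
  rw [mul_assoc]
  refine mul_le_mul_of_nonneg_left ?_ hA0.le
  rw [← Real.mul_rpow (Nat.cast_nonneg _) (by positivity)]
  refine Real.rpow_le_rpow (by positivity) ?_ ha0.le
  have h1' : ((s - 1 : ℕ) : ℝ) ≤ s := by exact_mod_cast Nat.sub_le _ _
  push_cast
  have h2' : (0 : ℝ) ≤ (b : ℝ) + 1 + 1 := by positivity
  calc ((b : ℝ) + 1 + 1) * ((s - 1 : ℕ) : ℝ) ≤ ((b : ℝ) + 1 + 1) * s := mul_le_mul_of_nonneg_left h1' h2'
    _ = s * ((b : ℝ) + 2) := by ring

/-- Step two: the two colour bound. -/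
theorem path_vs_path (t : ℕ) (ht : 1 ≤ t) (a : ℝ) (ha : 1 < a) :
    ∃ A : ℝ, 0 < A ∧ ∀ (V : Type) [LinearOrder V] [Fintype V] [Nonempty V] (E : V → V → Prop)
      (X : Finset V) (b : ℕ), ¬ HasPath E t X (b + 1) → ¬ HasPath (fun u v => ¬ E u v) t X (b + 1) →
      (X.card : ℝ) ≤ A * (((b : ℝ) + 2) * b) ^ a := by
  obtain ⟨k, q, hk, hq, N1, N2⟩ := params a ha
  have ha0 : 0 < a := by linarith
  set S : ℕ := (s1 t t + s2 t t) * 2 ^ (k + 1) with hS
  have hS2 : 2 ≤ S := by
    rw [hS]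
    have h1 := s1_pos t t ht ht
    have h2 : 2 ≤ 2 ^ (k + 1) := by
      have := Nat.one_le_two_pow (n := k)
      rw [pow_succ]; omega
    calc 2 = 1 * 2 := rfl
      _ ≤ (s1 t t + s2 t t) * 2 ^ (k + 1) := Nat.mul_le_mul (by omega) h2
  obtain ⟨A1, hA1, hcvp⟩ := clique_vs_path t ht a ha S hS2
  set A : ℝ := max (q : ℝ) (A1 * 3 ^ a) with hA
  have hA0 : 0 < A := lt_of_lt_of_le (by positivity) (le_max_right _ _)
  refine ⟨A, hA0, ?_⟩
  intro V _ _ _ E X0 b hb1 hb2
  have hmain := main_induction (V := V) E t t (s1 t t) (s2 t t) ht ht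
    (s1_pos t t ht ht) (s2_pos t t ht ht) (sizes_ok t t ht ht) a A ha k q hk hq (le_max_left _ _) N1 N2 X0
    (by
      intro X hX r b' hr hLab hb'
      rcases X.eq_empty_or_nonempty with hXe | hXne
      · rw [hXe]; simp; positivity
      have hb1 : 1 ≤ b' := by
        rcases Nat.eq_zero_or_pos b' with h0 | h0
        · exfalso; rw [h0] at hb'; exact hb' (hasPath_one hXne)
        · exact h0
      have hb1' : (1 : ℝ) ≤ b' := by exact_mod_cast hb1
      have hno := hLab.no_clique (le_s1 t t ht) (le_s2 t t ht) S (by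
        rw [hS]; exact Nat.mul_le_mul_left _ (by omega))
      have h1' := hcvp V E X hno b' hb'
      calc (X.card : ℝ) ≤ A1 * ((b' : ℝ) + 2) ^ a := h1'
        _ ≤ A1 * (3 * (b' : ℝ)) ^ a := by
            refine mul_le_mul_of_nonneg_left ?_ hA1.le
            exact Real.rpow_le_rpow (by positivity) (by linarith) ha0.le
        _ = (A1 * 3 ^ a) * (b' : ℝ) ^ a := by
            rw [Real.mul_rpow (by norm_num) (by positivity)]; ring
        _ ≤ A * (b' : ℝ) ^ a := mul_le_mul_of_nonneg_right (le_max_right _ _) (by positivity))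
    X0.card X0 (Subset.refl _) rfl (b + 1) b (lab_of_no_path ht (le_s2 t t ht) hb1) hb2
  refine hmain.trans (le_of_eq ?_)
  push_cast
  congr 3
  ring

end Pool.Agent.Helper32.PowPath
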