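import Mathlib

/-!
A linear programming alternative: either two families of sets carry probability distributions with a
common, well spread, vertex marginal, or (up to few vertices) the ground set splits in two parts,
one free of the first family and the other free of the second family.
-/

set_option autoImplicit false

open Finset

namespace Pool.Agent.Helper32.PowPath

/-- the vertex marginal of a weight on a family of sets. -/
noncomputable def marg {V : Type} [DecidableEq V] (F : Finset (Finset V)) (p : Finset V → ℝ) (v : V) : ℝ :=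
  ∑ A ∈ F, if v ∈ A then p A / A.card else 0

lemma lp_alternative {V : Type} [Fintype V] [DecidableEq V]
    (H L : Finset (Finset V)) (hH : ∀ A ∈ H, A.Nonempty) (hL : ∀ A ∈ L, A.Nonempty) (c : ℝ)
    (hc : 0 < c) :
    (∃ (p p' : Finset V → ℝ), (∀ A, 0 ≤ p A) ∧ (∀ A, 0 ≤ p' A) ∧ ∑ A ∈ H, p A = 1 ∧
      ∑ A ∈ L, p' A = 1 ∧ (∀ v, marg H p v = marg L p' v) ∧ (∀ v, marg H p v ≤ c)) ∨
    (∃ Z Xm Xp : Finset V, c * Z.card ≤ 1 ∧ (∀ v, v ∈ Z ∨ v ∈ Xm ∨ v ∈ Xp) ∧ Disjoint Xm Xp ∧
      (∀ A ∈ H, ¬ A ⊆ Xm) ∧ (∀ A ∈ L, ¬ A ⊆ Xp)) := by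
  classical
  rcases H.eq_empty_or_nonempty with hHe | hHne
  · right
    refine ⟨∅, univ, ∅, by simp, fun v => Or.inr (Or.inl (mem_univ v)), disjoint_empty_right _, ?_, ?_⟩
    · intro A hA; rw [hHe] at hA; exact absurd hA (notMem_empty _)
    · intro A hA hsub
      have := hL A hA
      rw [subset_empty.1 hsub] at this
      exact this.ne_empty rfl
  rcases L.eq_empty_or_nonempty with hLe | hLne
  · right
    refine ⟨∅, ∅, univ, by simp, fun v => Or.inr (Or.inr (mem_univ v)), disjoint_empty_left _, ?_, ?_⟩
    · intro A hA hsub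
      have := hH A hA
      rw [subset_empty.1 hsub] at this
      exact this.ne_empty rfl
    · intro A hA; rw [hLe] at hA; exact absurd hA (notMem_empty _)
  -- the averaging maps
  let M : (H → ℝ) → (V → ℝ) := fun p v => ∑ A : H, if v ∈ A.1 then p A / (A.1.card : ℝ) else 0
  let M' : (L → ℝ) → (V → ℝ) := fun p v => ∑ A : L, if v ∈ A.1 then p A / (A.1.card : ℝ) else 0
  have hMlin : IsLinearMap ℝ M := by
    constructor
    · intro x y
      funext v
      simp only [M, Pi.add_apply]
      rw [← sum_add_distrib]
      refine sum_congr rfl fun A _ => ?_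
      split_ifs
      · ring
      · ring
    · intro a x
      funext v
      simp only [M, Pi.smul_apply, smul_eq_mul]
      rw [mul_sum]
      refine sum_congr rfl fun A _ => ?_
      split_ifs
      · ring
      · ring
  have hM'lin : IsLinearMap ℝ M' := by
    constructor
    · intro x y
      funext v
      simp only [M', Pi.add_apply]
      rw [← sum_add_distrib]
      refine sum_congr rfl fun A _ => ?_
      split_ifs
      · ring
      · ring
    · intro a x
      funext v
      simp only [M', Pi.smul_apply, smul_eq_mul]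
      rw [mul_sum]
      refine sum_congr rfl fun A _ => ?_
      split_ifs
      · ring
      · ring
  have hMcont : Continuous M := by
    refine continuous_pi fun v => ?_
    refine continuous_finsetSum _ fun A _ => ?_
    split_ifs
    · exact (continuous_apply A).div_const _
    · exact continuous_const
  have hM'cont : Continuous M' := by
    refine continuous_pi fun v => ?_
    refine continuous_finsetSum _ fun A _ => ?_
    split_ifs
    · exact (continuous_apply A).div_const _
    · exact continuous_const
  let Φ : (H → ℝ) × (L → ℝ) → (V → ℝ) × (V → ℝ) := fun q => (M q.1 - M' q.2, M q.1)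
  have hΦlin : IsLinearMap ℝ Φ := by
    constructor
    · rintro ⟨x1, x2⟩ ⟨y1, y2⟩
      simp only [Φ, Prod.mk_add_mk, hMlin.map_add, hM'lin.map_add]
      congr 1
      abel
    · rintro a ⟨x1, x2⟩
      simp only [Φ, Prod.smul_mk, hMlin.map_smul, hM'lin.map_smul, smul_sub]
  have hΦcont : Continuous Φ := by
    refine Continuous.prodMk ?_ ?_
    · exact (hMcont.comp continuous_fst).sub (hM'cont.comp continuous_snd)
    · exact hMcont.comp continuous_fst
  let S : Set ((V → ℝ) × (V → ℝ)) := Φ '' (stdSimplex ℝ H ×ˢ stdSimplex ℝ L)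
  let T : Set ((V → ℝ) × (V → ℝ)) := {q | q.1 = 0 ∧ ∀ v, q.2 v ≤ c}
  have hSconv : Convex ℝ S :=
    ((convex_stdSimplex ℝ H).prod (convex_stdSimplex ℝ L)).is_linear_image hΦlin
  have hScomp : IsCompact S :=
    ((isCompact_stdSimplex ℝ H).prod (isCompact_stdSimplex ℝ L)).image hΦcont
  have hTconv : Convex ℝ T := by
    rintro ⟨x1, x2⟩ ⟨hx1, hx2⟩ ⟨y1, y2⟩ ⟨hy1, hy2⟩ a b ha hb hab
    simp only at hx1 hx2 hy1 hy2
    refine ⟨?_, ?_⟩
    · simp [hx1, hy1]
    · intro v
      simp only [Prod.smul_mk, Prod.mk_add_mk, Pi.add_apply, Pi.smul_apply, smul_eq_mul]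
      have e1 : a * x2 v ≤ a * c := mul_le_mul_of_nonneg_left (hx2 v) ha
      have e2 : b * y2 v ≤ b * c := mul_le_mul_of_nonneg_left (hy2 v) hb
      have e3 : a * c + b * c = c := by rw [← add_mul, hab, one_mul]
      linarith
  have hTclosed : IsClosed T := by
    have h1 : IsClosed {q : (V → ℝ) × (V → ℝ) | q.1 = 0} := isClosed_eq continuous_fst continuous_const
    have h2 : IsClosed {q : (V → ℝ) × (V → ℝ) | ∀ v, q.2 v ≤ c} := by
      rw [Set.ofPred_forall]
      refine isClosed_iInter fun v => ?_
      exact isClosed_le ((continuous_apply v).comp continuous_snd) continuous_const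
    exact h1.inter h2
  by_cases hdis : Disjoint S T
  · right
    obtain ⟨F, u, w, hFS, huw, hFT⟩ :=
      geometric_hahn_banach_compact_closed hSconv hScomp hTconv hTclosed hdis
    let f : (V → ℝ) →ₗ[ℝ] ℝ := F.toLinearMap ∘ₗ (LinearMap.inl ℝ (V → ℝ) (V → ℝ))
    let z : (V → ℝ) →ₗ[ℝ] ℝ := F.toLinearMap ∘ₗ (LinearMap.inr ℝ (V → ℝ) (V → ℝ))
    have hF : ∀ x y, F (x, y) = f x + z y := by
      intro x y
      have : ((x, y) : (V → ℝ) × (V → ℝ)) = (x, 0) + (0, y) := by simp
      rw [this, map_add]
      rfl
    let fv : V → ℝ := fun v => f (Pi.single v 1)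
    let zv : V → ℝ := fun v => z (Pi.single v 1)
    have hf : ∀ x : V → ℝ, f x = ∑ v, x v * fv v := by
      intro x
      conv_lhs => rw [← Finset.univ_sum_single x]
      rw [map_sum]
      refine sum_congr rfl fun v _ => ?_
      have : (Pi.single v (x v) : V → ℝ) = x v • (Pi.single v (1 : ℝ) : V → ℝ) := by
        rw [← Pi.single_smul]
        simp
      rw [this, map_smul]
      rfl
    have hz : ∀ x : V → ℝ, z x = ∑ v, x v * zv v := by
      intro x
      conv_lhs => rw [← Finset.univ_sum_single x]
      rw [map_sum]
      refine sum_congr rfl fun v _ => ?_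
      have : (Pi.single v (x v) : V → ℝ) = x v • (Pi.single v (1 : ℝ) : V → ℝ) := by
        rw [← Pi.single_smul]
        simp
      rw [this, map_smul]
      rfl
    -- z is nonpositive
    have hzneg : ∀ v, zv v ≤ 0 := by
      intro v
      by_contra hcon
      push Not at hcon
      -- take M large
      set C : ℝ := z (fun _ => c) with hC
      have hkey : ∀ m : ℝ, 0 ≤ m → w < C - m * zv v := by
        intro m hm
        have hmem : ((0 : V → ℝ), (fun _ => c) - m • (Pi.single v (1 : ℝ) : V → ℝ)) ∈ T := by
          refine ⟨rfl, ?_⟩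
          intro v'
          simp only [Pi.sub_apply, Pi.smul_apply, smul_eq_mul]
          by_cases hv' : v' = v
          · subst hv'
            simp [hm]
          · simp [hv']
        have := hFT _ hmem
        rw [hF, map_zero, zero_add, map_sub, map_smul, smul_eq_mul] at this
        exact this
      have h0 := hkey (|C - w| / zv v + 1) (by positivity)
      have : (|C - w| / zv v + 1) * zv v = |C - w| + zv v := by
        field_simp
      rw [this] at h0
      have := le_abs_self (C - w)
      linarith
    -- values at the vertices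
    have hval : ∀ A ∈ H, ∀ B ∈ L, (∑ v ∈ A, fv v) / A.card - (∑ v ∈ B, fv v) / B.card
        + (∑ v ∈ A, zv v) / A.card < c * ∑ v, zv v := by
      intro A hA B hB
      have hmemS : Φ (Pi.single ⟨A, hA⟩ 1, Pi.single ⟨B, hB⟩ 1) ∈ S := by
        refine ⟨_, ⟨?_, ?_⟩, rfl⟩
        · exact single_mem_stdSimplex ℝ _
        · exact single_mem_stdSimplex ℝ _
      have h1 := hFS _ hmemS
      have hmemT : ((0 : V → ℝ), (fun _ => c)) ∈ T := ⟨rfl, fun v => le_refl _⟩
      have h2 := hFT _ hmemT
      rw [hF, map_zero, zero_add, hz] at h2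
      have hMA : M (Pi.single ⟨A, hA⟩ 1) = fun v => if v ∈ A then 1 / (A.card : ℝ) else 0 := by
        funext v
        simp only [M]
        rw [Fintype.sum_eq_single (⟨A, hA⟩ : H)]
        · simp
        · intro x hx
          simp [hx]
      have hMB : M' (Pi.single ⟨B, hB⟩ 1) = fun v => if v ∈ B then 1 / (B.card : ℝ) else 0 := by
        funext v
        simp only [M']
        rw [Fintype.sum_eq_single (⟨B, hB⟩ : L)]
        · simp
        · intro x hx
          simp [hx]
      simp only [Φ] at h1
      rw [hF, map_sub, hMA, hMB, hf, hf, hz] at h1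
      have e1 : ∀ (A : Finset V) (g : V → ℝ), ∑ v, (if v ∈ A then 1 / (A.card : ℝ) else 0) * g v
          = (∑ v ∈ A, g v) / A.card := by
        intro A g
        rw [sum_div]
        rw [← Finset.sum_filter_add_sum_filter_not univ (fun v => v ∈ A)]
        have : ∑ v ∈ univ.filter (fun v => ¬ v ∈ A), (if v ∈ A then 1 / (A.card : ℝ) else 0) * g v = 0 := by
          refine sum_eq_zero fun v hv => ?_
          rw [mem_filter] at hv
          simp [hv.2]
        rw [this, add_zero]
        have : univ.filter (fun v => v ∈ A) = A := by ext; simp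
        rw [this]
        refine sum_congr rfl fun v hv => ?_
        simp [hv]
        ring
      rw [e1, e1, e1] at h1
      have e2 : ∑ v, c * zv v = c * ∑ v, zv v := (mul_sum _ _ _).symm
      rw [e2] at h2
      linarith
    -- threshold
    obtain ⟨B0, hB0, hB0min⟩ := exists_min_image L (fun B => (∑ v ∈ B, fv v) / (B.card : ℝ)) hLne
    set τ : ℝ := (∑ v ∈ B0, fv v) / (B0.card : ℝ) with hτ
    set W : ℝ := c * ∑ v, zv v with hW
    refine ⟨univ.filter (fun v => zv v < W), univ.filter (fun v => τ ≤ fv v ∧ ¬ zv v < W),
      univ.filter (fun v => ¬ τ ≤ fv v ∧ ¬ zv v < W), ?_, ?_, ?_, ?_, ?_⟩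
    · -- few vertices in Z
      set Z := univ.filter (fun v => zv v < W) with hZ
      have hsum : ∑ v, zv v ≤ ∑ v ∈ Z, zv v := by
        rw [← Finset.sum_filter_add_sum_filter_not univ (fun v => zv v < W)]
        have : ∑ v ∈ univ.filter (fun v => ¬ zv v < W), zv v ≤ 0 := sum_nonpos fun v _ => hzneg v
        linarith
      rcases Z.eq_empty_or_nonempty with hZe | hZne
      · rw [hZe]; simp
      · have hlt : ∑ v ∈ Z, zv v < ∑ v ∈ Z, W := by
          refine sum_lt_sum_of_nonempty hZne fun v hv => ?_
          rw [hZ, mem_filter] at hv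
          exact hv.2
        rw [sum_const, nsmul_eq_mul] at hlt
        -- Σ z < |Z| c Σ z, Σ z < 0
        have hneg : ∑ v, zv v < 0 := by
          by_contra hcon
          push Not at hcon
          have h0 : W ≥ 0 := by rw [hW]; positivity
          obtain ⟨v, hv⟩ := hZne
          have hle : ∑ v, zv v ≤ 0 := sum_nonpos fun v _ => hzneg v
          have h00 : ∑ v, zv v = 0 := le_antisymm hle hcon
          have := (sum_eq_zero_iff_of_nonpos (fun v _ => hzneg v)).1 h00 v (mem_univ v)
          rw [hZ, mem_filter] at hv
          have hv2 := hv.2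
          rw [hW, h00, mul_zero, this] at hv2
          exact lt_irrefl _ hv2
        have h2 : ∑ v, zv v < (Z.card : ℝ) * (c * ∑ v, zv v) := lt_of_le_of_lt hsum hlt
        by_contra hcon
        push Not at hcon
        nlinarith
    · intro v
      simp only [mem_filter, mem_univ, true_and]
      tauto
    · rw [disjoint_left]
      intro v hv hv'
      rw [mem_filter] at hv hv'
      exact hv'.2.1 hv.2.1
    · intro A hA hsub
      have hcard : (0 : ℝ) < A.card := by exact_mod_cast (hH A hA).card_pos
      have h1 := hval A hA B0 hB0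
      have h2 : (A.card : ℝ) * W ≤ ∑ v ∈ A, zv v := by
        rw [← nsmul_eq_mul, ← sum_const]
        refine sum_le_sum fun v hv => ?_
        have := hsub hv
        rw [mem_filter] at this
        exact not_lt.1 this.2.2
      have h3 : (A.card : ℝ) * τ ≤ ∑ v ∈ A, fv v := by
        rw [← nsmul_eq_mul, ← sum_const]
        refine sum_le_sum fun v hv => ?_
        have := hsub hv
        rw [mem_filter] at this
        exact this.2.1
      have h4 : W ≤ (∑ v ∈ A, zv v) / A.card := by
        rw [le_div_iff₀ hcard]; linarith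
      have h5 : τ ≤ (∑ v ∈ A, fv v) / A.card := by
        rw [le_div_iff₀ hcard]; linarith
      linarith
    · intro B hB hsub
      have hcard : (0 : ℝ) < B.card := by exact_mod_cast (hL B hB).card_pos
      have h1 := hB0min B hB
      have h3 : ∑ v ∈ B, fv v < (B.card : ℝ) * τ := by
        rw [← nsmul_eq_mul, ← sum_const]
        refine sum_lt_sum_of_nonempty (hL B hB) fun v hv => ?_
        have := hsub hv
        rw [mem_filter] at this
        exact not_le.1 this.2.1
      have h5 : (∑ v ∈ B, fv v) / B.card < τ := by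
        rw [div_lt_iff₀ hcard]; linarith
      linarith
  · left
    rw [Set.not_disjoint_iff] at hdis
    obtain ⟨q, ⟨⟨x, y⟩, ⟨hx, hy⟩, rfl⟩, hq1, hq2⟩ := hdis
    simp only [Φ] at hq1 hq2
    have hxy : M x = M' y := sub_eq_zero.1 hq1
    simp only at hx hy
    refine ⟨fun A => if h : A ∈ H then x ⟨A, h⟩ else 0, fun A => if h : A ∈ L then y ⟨A, h⟩ else 0,
      ?_, ?_, ?_, ?_, ?_, ?_⟩
    · intro A
      simp only
      split_ifs with h
      · exact hx.1 _
      · exact le_refl _
    · intro A
      simp only
      split_ifs with h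
      · exact hy.1 _
      · exact le_refl _
    · rw [← sum_coe_sort H]
      rw [← hx.2]
      refine sum_congr rfl fun A _ => ?_
      simp
    · rw [← sum_coe_sort L]
      rw [← hy.2]
      refine sum_congr rfl fun A _ => ?_
      simp
    · intro v
      have e1 : marg H (fun A => if h : A ∈ H then x ⟨A, h⟩ else 0) v = M x v := by
        unfold marg
        rw [← sum_coe_sort H]
        refine sum_congr rfl fun A _ => ?_
        simp
      have e2 : marg L (fun A => if h : A ∈ L then y ⟨A, h⟩ else 0) v = M' y v := by
        unfold marg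
        rw [← sum_coe_sort L]
        refine sum_congr rfl fun A _ => ?_
        simp
      rw [e1, e2, hxy]
    · intro v
      have e1 : marg H (fun A => if h : A ∈ H then x ⟨A, h⟩ else 0) v = M x v := by
        unfold marg
        rw [← sum_coe_sort H]
        refine sum_congr rfl fun A _ => ?_
        simp
      rw [e1]
      exact hq2 v

end Pool.Agent.Helper32.PowPath
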