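import Pool.Agent.Helper32.PathBasic
import Pool.Agent.Helper32.LP

/-!
If no member of `H` is `t`-linked to a member of `L`, then the density of `E` between the marginals is small.
-/

set_option autoImplicit false

open Finset

namespace Pool.Agent.Helper32.PowPath

lemma marg_sum {V : Type} [DecidableEq V] {F : Finset (Finset V)} {W : Finset V} (p : Finset V → ℝ)
    (g : V → ℝ) (hF : ∀ A ∈ F, A ⊆ W) :
    ∑ u ∈ W, marg F p u * g u = ∑ A ∈ F, p A / A.card * ∑ u ∈ A, g u := by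
  unfold marg
  simp_rw [sum_mul]
  rw [sum_comm]
  refine sum_congr rfl fun A hA => ?_
  have : ∑ x ∈ W, (if x ∈ A then p A / (A.card : ℝ) else 0) * g x =
      ∑ x ∈ A, (if x ∈ A then p A / (A.card : ℝ) else 0) * g x := by
    refine (sum_subset (hF A hA) fun x _ hx => ?_).symm
    simp [hx]
  rw [this, mul_sum]
  refine sum_congr rfl fun x hx => ?_
  simp [hx]

lemma marg_nonneg {V : Type} [DecidableEq V] {F : Finset (Finset V)} {p : Finset V → ℝ}
    (hp : ∀ A, 0 ≤ p A) (v : V) : 0 ≤ marg F p v := by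
  unfold marg
  refine sum_nonneg fun A _ => ?_
  split_ifs
  · exact div_nonneg (hp A) (Nat.cast_nonneg _)
  · exact le_refl _

lemma marg_total {V : Type} [DecidableEq V] {F : Finset (Finset V)} {W : Finset V} {p : Finset V → ℝ}
    (hp1 : ∑ A ∈ F, p A = 1) (hF : ∀ A ∈ F, A ⊆ W) (hne : ∀ A ∈ F, A.Nonempty) :
    ∑ u ∈ W, marg F p u = 1 := by
  have := marg_sum p (fun _ => (1 : ℝ)) hF
  simp only [mul_one, sum_const, nsmul_eq_mul] at this
  rw [this, ← hp1]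
  refine sum_congr rfl fun A hA => ?_
  have : (A.card : ℝ) ≠ 0 := by
    have := (hne A hA).card_pos
    positivity
  field_simp

open Classical in
lemma density {V : Type} [LinearOrder V] {E : V → V → Prop} {t h1 h2 : ℕ} (ht : 1 ≤ t) (hh1 : 0 < h1)
    (hh2 : 0 < h2) {H L : Finset (Finset V)} {Wk Wl : Finset V} {p p' : Finset V → ℝ}
    (hp : ∀ A, 0 ≤ p A) (hp' : ∀ A, 0 ≤ p' A) (hp1 : ∑ A ∈ H, p A = 1) (hp'1 : ∑ A ∈ L, p' A = 1)
    (hH : ∀ A ∈ H, A ⊆ Wk ∧ A.card = h1) (hL : ∀ A ∈ L, A ⊆ Wl ∧ A.card = h2)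
    (no : ∀ A ∈ H, ∀ B ∈ L, ¬ Ktt E t A B) :
    ∑ u ∈ Wk, marg H p u * (∑ v ∈ Wl, if ¬ E u v then 0 else marg L p' v) ≤
      ((t * h2 + t * 2 ^ h1 * h1 : ℕ) : ℝ) / (h1 * h2) := by
  have hh1' : (0 : ℝ) < h1 := by exact_mod_cast hh1
  have hh2' : (0 : ℝ) < h2 := by exact_mod_cast hh2
  rw [marg_sum p _ (fun A hA => (hH A hA).1)]
  have e1 : ∀ u, (∑ v ∈ Wl, if ¬ E u v then 0 else marg L p' v) =
      ∑ B ∈ L, p' B / h2 * ((B.filter (fun v => E u v)).card : ℝ) := by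
    intro u
    have : (∑ v ∈ Wl, if ¬ E u v then 0 else marg L p' v) =
      ∑ v ∈ Wl, marg L p' v * (if E u v then 1 else 0) := by
      refine sum_congr rfl fun v _ => ?_
      by_cases h : E u v
      · simp [h]
      · simp [h]
    rw [this, marg_sum p' _ (fun A hA => (hL A hA).1)]
    refine sum_congr rfl fun B hB => ?_
    rw [(hL B hB).2, card_filter]
    push_cast
    rfl
  simp_rw [e1]
  have e2 : ∀ A ∈ H, p A / (A.card : ℝ) * ∑ u ∈ A, ∑ B ∈ L, p' B / h2 * ((B.filter (fun v => E u v)).card : ℝ)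
      ≤ p A * (((t * h2 + t * 2 ^ h1 * h1 : ℕ) : ℝ) / (h1 * h2)) := by
    intro A hA
    rw [(hH A hA).2, sum_comm]
    have e3 : ∀ B ∈ L, ∑ u ∈ A, p' B / h2 * ((B.filter (fun v => E u v)).card : ℝ) ≤
        p' B * (((t * h2 + t * 2 ^ h1 * h1 : ℕ) : ℝ) / h2) := by
      intro B hB
      rw [← mul_sum]
      have hk := kst (E := E) ht (hH A hA).2 (hL B hB).2 (no A hA B hB)
      have e4 : ((A ×ˢ B).filter (fun p => E p.1 p.2)).card = ∑ u ∈ A, (B.filter (fun v => E u v)).card := by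
        rw [card_filter, sum_product]
        refine sum_congr rfl fun v _ => ?_
        rw [card_filter]
      rw [e4] at hk
      have hk' : (∑ u ∈ A, ((B.filter (fun v => E u v)).card : ℝ)) ≤ ((t * h2 + t * 2 ^ h1 * h1 : ℕ) : ℝ) := by
        exact_mod_cast hk
      calc p' B / h2 * ∑ u ∈ A, ((B.filter (fun v => E u v)).card : ℝ)
          ≤ p' B / h2 * ((t * h2 + t * 2 ^ h1 * h1 : ℕ) : ℝ) :=
            mul_le_mul_of_nonneg_left hk' (div_nonneg (hp' B) hh2'.le)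
        _ = p' B * (((t * h2 + t * 2 ^ h1 * h1 : ℕ) : ℝ) / h2) := by ring
    calc p A / (h1 : ℝ) * ∑ B ∈ L, ∑ u ∈ A, p' B / h2 * ((B.filter (fun v => E u v)).card : ℝ)
        ≤ p A / (h1 : ℝ) * ∑ B ∈ L, p' B * (((t * h2 + t * 2 ^ h1 * h1 : ℕ) : ℝ) / h2) :=
          mul_le_mul_of_nonneg_left (sum_le_sum e3) (div_nonneg (hp A) hh1'.le)
      _ = p A / (h1 : ℝ) * (((t * h2 + t * 2 ^ h1 * h1 : ℕ) : ℝ) / h2) := by
          rw [← sum_mul, hp'1, one_mul]
      _ = p A * (((t * h2 + t * 2 ^ h1 * h1 : ℕ) : ℝ) / (h1 * h2)) := by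
          field_simp
  calc _ ≤ ∑ A ∈ H, p A * (((t * h2 + t * 2 ^ h1 * h1 : ℕ) : ℝ) / (h1 * h2)) := sum_le_sum e2
    _ = ((t * h2 + t * 2 ^ h1 * h1 : ℕ) : ℝ) / (h1 * h2) := by rw [← sum_mul, hp1, one_mul]

end Pool.Agent.Helper32.PowPath
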