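import Pool.Agent.GP.Gelfond

/-!
# Gelfond's criterion with growing degree

If nonzero integer polynomials of degree `≤ C n ^ a` and coefficients `≤ exp (C n ^ b)` take
values `≤ exp (- c n ^ (a + b + 1))` at `θ` for all large `n`, then `θ` is algebraic.
-/

set_option autoImplicit false

namespace Pool.Agent.Helper32.GelfGrow

open Polynomial Finset GP

theorem KK_le (θ : ℂ) (d : ℕ) :
    KK θ d ≤ Real.exp ((6 + 2 * Real.log (max 1 ‖θ‖)) * (d : ℝ) ^ 2) := by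
  unfold KK
  have hT : 0 ≤ Real.log (max 1 ‖θ‖) := Real.log_nonneg (le_max_left _ _)
  have hm : 0 < max 1 ‖θ‖ := lt_of_lt_of_le one_pos (le_max_left _ _)
  have h1 : ((2 * d).factorial : ℝ) ≤ Real.exp (4 * (d : ℝ) ^ 2) := by
    have e1 : ((2 * d).factorial : ℝ) ≤ ((2 * d : ℕ) : ℝ) ^ (2 * d) := by
      exact_mod_cast Nat.factorial_le_pow (2 * d)
    have e2 : ((2 * d : ℕ) : ℝ) ≤ Real.exp ((2 * d : ℕ) : ℝ) := by
      linarith [Real.add_one_le_exp ((2 * d : ℕ) : ℝ)]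
    calc ((2 * d).factorial : ℝ) ≤ ((2 * d : ℕ) : ℝ) ^ (2 * d) := e1
      _ ≤ Real.exp ((2 * d : ℕ) : ℝ) ^ (2 * d) := pow_le_pow_left₀ (by positivity) e2 _
      _ = Real.exp (4 * (d : ℝ) ^ 2) := by
          rw [← Real.exp_nat_mul]
          congr 1
          push_cast
          ring
  have h2 : max 1 ‖θ‖ ^ (2 * d) ≤ Real.exp (2 * Real.log (max 1 ‖θ‖) * (d : ℝ) ^ 2) := by
    have e1 : max 1 ‖θ‖ ^ (2 * d) = Real.exp (2 * Real.log (max 1 ‖θ‖) * (d : ℝ)) := by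
      conv_lhs => rw [← Real.exp_log hm]
      rw [← Real.exp_nat_mul]
      congr 1
      push_cast
      ring
    rw [e1]
    apply Real.exp_le_exp.2
    have e2 : (d : ℝ) ≤ (d : ℝ) ^ 2 := by
      have : d ≤ d ^ 2 := Nat.le_self_pow (by norm_num) d
      exact_mod_cast this
    exact mul_le_mul_of_nonneg_left e2 (by positivity)
  have h3 : (4 : ℝ) ^ (d * d) ≤ Real.exp (2 * (d : ℝ) ^ 2) := by
    have e1 : (4 : ℝ) ≤ Real.exp 2 := by
      have := Real.add_one_le_exp (1 : ℝ)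
      have h : Real.exp 2 = Real.exp 1 * Real.exp 1 := by
        rw [← Real.exp_add]
        norm_num
      rw [h]
      nlinarith
    calc (4 : ℝ) ^ (d * d) ≤ Real.exp 2 ^ (d * d) := pow_le_pow_left₀ (by norm_num) e1 _
      _ = Real.exp (2 * (d : ℝ) ^ 2) := by
          rw [← Real.exp_nat_mul]
          congr 1
          push_cast
          ring
  have h4 : (6 + 2 * Real.log (max 1 ‖θ‖)) * (d : ℝ) ^ 2 =
      4 * (d : ℝ) ^ 2 + (2 * Real.log (max 1 ‖θ‖) * (d : ℝ) ^ 2 + 2 * (d : ℝ) ^ 2) := by ring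
  rw [h4, Real.exp_add, Real.exp_add]
  exact mul_le_mul h1 (mul_le_mul h2 h3 (by positivity) (Real.exp_pos _).le) (by positivity)
    (Real.exp_pos _).le

/-- the basic size bound -/
theorem size_le (θ : ℂ) {C : ℝ} (hC : 0 < C) {a b : ℕ} (hab : a ≤ b) {n : ℕ} (hn : 1 ≤ n)
    {d : ℕ} (hd : (d : ℝ) ≤ C * (n : ℝ) ^ a) (k : ℕ) (hk : 1 ≤ k) :
    KK θ d * (((d : ℝ) + 1) * Real.exp (C * (n : ℝ) ^ b)) ^ (k * d) ≤
      Real.exp (k * (C ^ 2 * (8 + 2 * Real.log (max 1 ‖θ‖))) * (n : ℝ) ^ (a + b)) := by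
  have hT : 0 ≤ Real.log (max 1 ‖θ‖) := Real.log_nonneg (le_max_left _ _)
  have hk' : (1 : ℝ) ≤ k := by exact_mod_cast hk
  have hn' : (1 : ℝ) ≤ n := by exact_mod_cast hn
  have h1 : ((d : ℝ) + 1) * Real.exp (C * (n : ℝ) ^ b) ≤ Real.exp (d + C * (n : ℝ) ^ b) := by
    rw [Real.exp_add]
    exact mul_le_mul_of_nonneg_right (Real.add_one_le_exp _) (Real.exp_pos _).le
  have h2 : (((d : ℝ) + 1) * Real.exp (C * (n : ℝ) ^ b)) ^ (k * d) ≤
      Real.exp (k * ((d : ℝ) ^ 2 + d * (C * (n : ℝ) ^ b))) := by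
    calc (((d : ℝ) + 1) * Real.exp (C * (n : ℝ) ^ b)) ^ (k * d)
        ≤ Real.exp (d + C * (n : ℝ) ^ b) ^ (k * d) := pow_le_pow_left₀ (by positivity) h1 _
      _ = Real.exp (k * ((d : ℝ) ^ 2 + d * (C * (n : ℝ) ^ b))) := by
          rw [← Real.exp_nat_mul]
          congr 1
          push_cast
          ring
  refine (mul_le_mul (KK_le θ d) h2 (by positivity) (Real.exp_pos _).le).trans ?_
  rw [← Real.exp_add]
  apply Real.exp_le_exp.2
  have hpow : (n : ℝ) ^ a * (n : ℝ) ^ a ≤ (n : ℝ) ^ (a + b) := by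
    rw [← pow_add]
    exact pow_le_pow_right₀ hn' (by omega)
  have hna : 0 ≤ (n : ℝ) ^ a := by positivity
  have hnab : 0 ≤ (n : ℝ) ^ (a + b) := by positivity
  have hd2 : (d : ℝ) ^ 2 ≤ C ^ 2 * (n : ℝ) ^ (a + b) := by
    have hd0 : (0 : ℝ) ≤ d := by positivity
    calc (d : ℝ) ^ 2 = d * d := by ring
      _ ≤ (C * (n : ℝ) ^ a) * (C * (n : ℝ) ^ a) := mul_le_mul hd hd hd0 (by positivity)
      _ = C ^ 2 * ((n : ℝ) ^ a * (n : ℝ) ^ a) := by ring
      _ ≤ C ^ 2 * (n : ℝ) ^ (a + b) := mul_le_mul_of_nonneg_left hpow (by positivity)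
  have hdn : (d : ℝ) * (C * (n : ℝ) ^ b) ≤ C ^ 2 * (n : ℝ) ^ (a + b) := by
    calc (d : ℝ) * (C * (n : ℝ) ^ b) ≤ (C * (n : ℝ) ^ a) * (C * (n : ℝ) ^ b) :=
          mul_le_mul_of_nonneg_right hd (by positivity)
      _ = C ^ 2 * (n : ℝ) ^ (a + b) := by rw [pow_add]; ring
  have e1 : (6 + 2 * Real.log (max 1 ‖θ‖)) * (d : ℝ) ^ 2 ≤
      k * ((6 + 2 * Real.log (max 1 ‖θ‖)) * (C ^ 2 * (n : ℝ) ^ (a + b))) := by
    have f1 : (6 + 2 * Real.log (max 1 ‖θ‖)) * (d : ℝ) ^ 2 ≤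
        (6 + 2 * Real.log (max 1 ‖θ‖)) * (C ^ 2 * (n : ℝ) ^ (a + b)) :=
      mul_le_mul_of_nonneg_left hd2 (by positivity)
    refine f1.trans ?_
    exact le_mul_of_one_le_left (by positivity) hk'
  have e2 : (k : ℝ) * ((d : ℝ) ^ 2 + d * (C * (n : ℝ) ^ b)) ≤
      k * (C ^ 2 * (n : ℝ) ^ (a + b) + C ^ 2 * (n : ℝ) ^ (a + b)) :=
    mul_le_mul_of_nonneg_left (add_le_add hd2 hdn) (by positivity)
  refine (add_le_add e1 e2).trans (le_of_eq ?_)
  ring

/-- Gelfond's criterion with growing degree -/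
theorem gelfond_grow (θ : ℂ) (C c : ℝ) (hC : 0 < C) (hc : 0 < c) (a b : ℕ) (hab : a ≤ b)
    (N₀ : ℕ)
    (h : ∀ n : ℕ, N₀ ≤ n → ∃ A : ℤ[X], A ≠ 0 ∧ (A.natDegree : ℝ) ≤ C * (n : ℝ) ^ a ∧
      (∀ i, |(A.coeff i : ℝ)| ≤ Real.exp (C * (n : ℝ) ^ b)) ∧
      ‖aeval θ A‖ ≤ Real.exp (-(c * (n : ℝ) ^ (a + b + 1)))) :
    IsAlgebraic ℚ θ := by
  choose! A hA0 hAd hAc hAθ using h
  set T : ℝ := Real.log (max 1 ‖θ‖) with hT
  have hT0 : 0 ≤ T := Real.log_nonneg (le_max_left _ _)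
  set c1 : ℝ := C ^ 2 * (8 + 2 * T) with hc1
  have hc10 : 0 < c1 := by positivity
  -- natural degree bounds
  set d : ℕ → ℕ := fun n => ⌊C * (n : ℝ) ^ a⌋₊ with hd
  have hdle : ∀ n, ((d n : ℕ) : ℝ) ≤ C * (n : ℝ) ^ a := fun n => Nat.floor_le (by positivity)
  have hAd' : ∀ n, N₀ ≤ n → (A n).natDegree ≤ d n := fun n hn => Nat.le_floor (hAd n hn)
  have hdmono : ∀ n, d n ≤ d (n + 1) := fun n => by
    apply Nat.floor_le_floor
    have : (n : ℝ) ^ a ≤ ((n + 1 : ℕ) : ℝ) ^ a := by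
      apply pow_le_pow_left₀ (by positivity)
      push_cast
      linarith
    exact mul_le_mul_of_nonneg_left this hC.le
  have hmA : ∀ n, N₀ ≤ n → mm (A n) ≤ ((d n : ℝ) + 1) * Real.exp (C * (n : ℝ) ^ b) :=
    fun n hn => mm_le (hAd' n hn) (hAc n hn)
  set w : ℕ → ℝ := fun n => Real.exp (c1 * (n : ℝ) ^ (a + b)) with hw
  have hw1 : ∀ n, 1 ≤ w n := fun n => Real.one_le_exp (by positivity)
  -- eventual inequalities
  have hlarge : ∀ M : ℝ, ∃ N : ℕ, ∀ n : ℕ, N ≤ n → M < n := fun M => by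
    obtain ⟨N, hN⟩ := exists_nat_gt M
    exact ⟨N, fun n hn => hN.trans_le (by exact_mod_cast hn)⟩
  have hpp : ∃ N₁, N₀ ≤ N₁ ∧ 1 ≤ N₁ ∧ ∀ n, N₁ ≤ n → ∃ (p : ℤ[X]) (i : ℕ) (D : ℤ[X]), Prime p ∧
      p ^ i * D = A n ∧ ‖aeval θ (p ^ i)‖ < 1 ∧
      ‖aeval θ (p ^ i)‖ ≤ Real.exp (-(c / 2 * (n : ℝ) ^ (a + b + 1))) := by
    obtain ⟨N₁, hN₁⟩ := hlarge (3 * c1 / c)
    refine ⟨max (max N₀ N₁) 1, (le_max_left _ _).trans (le_max_left _ _), le_max_right _ _,
      fun n hn => ?_⟩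
    have hn0 : N₀ ≤ n := ((le_max_left _ _).trans (le_max_left _ _)).trans hn
    have hn1 : N₁ ≤ n := ((le_max_right _ _).trans (le_max_left _ _)).trans hn
    have hn2 : 1 ≤ n := (le_max_right _ _).trans hn
    have hnr : (1 : ℝ) ≤ n := by exact_mod_cast hn2
    have hbig : 3 * c1 < c * n := by
      have := hN₁ n hn1
      rw [div_lt_iff₀ hc] at this
      linarith
    have hnp : 0 < (n : ℝ) ^ (a + b) := by positivity
    have hbig2 : 3 * (c1 * (n : ℝ) ^ (a + b)) < c * (n : ℝ) ^ (a + b + 1) := by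
      rw [pow_succ]
      have := mul_lt_mul_of_pos_right hbig hnp
      nlinarith
    have hwp : 0 < w n := zero_lt_one.trans_le (hw1 n)
    have he0 : 0 < (w n)⁻¹ := inv_pos.2 hwp
    have he1 : (w n)⁻¹ ≤ 1 := inv_le_one_of_one_le₀ (hw1 n)
    have hsm : ‖aeval θ (A n)‖ < (w n)⁻¹ ^ 3 := by
      refine (hAθ n hn0).trans_lt ?_
      simp only [hw]
      rw [← Real.exp_neg, ← Real.exp_nat_mul]
      apply Real.exp_lt_exp.2
      push_cast
      linarith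
    have hH : ∀ f g : ℤ[X], f * g = A n → IsRelPrime f g →
        (w n)⁻¹ ≤ max ‖aeval θ f‖ ‖aeval θ g‖ := by
      intro f g hfg hrel
      have hfg0 : f * g ≠ 0 := by rw [hfg]; exact hA0 n hn0
      have hf0 : f ≠ 0 := left_ne_zero_of_mul hfg0
      have hg0 : g ≠ 0 := right_ne_zero_of_mul hfg0
      have hdeg : f.natDegree + g.natDegree ≤ d n := by
        rw [← natDegree_mul hf0 hg0, hfg]
        exact hAd' n hn0
      have h1 := one_le_of_isRelPrime θ hf0 hg0 hrel (d := d n) (by omega) (by omega)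
        (le_max_left ‖aeval θ f‖ ‖aeval θ g‖) (le_max_right ‖aeval θ f‖ ‖aeval θ g‖)
      have h2 : (mm f * mm g) ^ (d n) ≤
          (((d n : ℝ) + 1) * Real.exp (C * (n : ℝ) ^ b)) ^ (1 * d n) := by
        rw [← mm_mul, hfg, one_mul]
        exact pow_le_pow_left₀ (zero_le_one.trans (one_le_mm (hA0 n hn0))) (hmA n hn0) (d n)
      have hm0 : 0 ≤ max ‖aeval θ f‖ ‖aeval θ g‖ := (norm_nonneg _).trans (le_max_left _ _)
      have h3 := size_le θ hC hab hn2 (hdle n) 1 le_rfl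
      rw [inv_le_iff_one_le_mul₀ hwp]
      refine h1.trans ?_
      have hK0 : 0 ≤ KK θ (d n) := zero_le_one.trans (one_le_KK θ (d n))
      have h4 : KK θ (d n) * (mm f * mm g) ^ (d n) ≤ w n := by
        refine (mul_le_mul_of_nonneg_left h2 hK0).trans (h3.trans (le_of_eq ?_))
        simp only [hw, hc1, hT]
        congr 1
        push_cast
        ring
      rw [mul_comm (max _ _)]
      exact mul_le_mul_of_nonneg_right h4 hm0
    obtain ⟨p, i, D, hp, hD, hlt, hle⟩ := exists_prime_pow (hA0 n hn0) θ he0 he1 hsm hH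
    refine ⟨p, i, D, hp, hD, hlt.trans_le he1, ?_⟩
    rw [← div_eq_mul_inv, div_le_iff₀ hwp] at hle
    refine hle.trans ?_
    have h5 : ‖aeval θ (A n)‖ * w n ≤
        Real.exp (-(c * (n : ℝ) ^ (a + b + 1))) * w n :=
      mul_le_mul_of_nonneg_right (hAθ n hn0) hwp.le
    refine h5.trans ?_
    simp only [hw]
    rw [← Real.exp_add]
    apply Real.exp_le_exp.2
    have : 0 ≤ c1 * (n : ℝ) ^ (a + b) := by positivity
    linarith
  obtain ⟨N₁, hN₀₁, hN₁1, hN₁⟩ := hpp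
  choose! p i D hp hD hlt hle using hN₁
  have hq0 : ∀ n, N₁ ≤ n → p n ^ i n ≠ 0 := fun n hn => pow_ne_zero _ (hp n hn).ne_zero
  have hqd : ∀ n, N₁ ≤ n → (p n ^ i n).natDegree ≤ d n := fun n hn => by
    have h1 : (p n ^ i n) * D n ≠ 0 := by rw [hD n hn]; exact hA0 n (hN₀₁.trans hn)
    have h2 := natDegree_mul (hq0 n hn) (right_ne_zero_of_mul h1)
    rw [hD n hn] at h2
    have := hAd' n (hN₀₁.trans hn)
    omega
  have hqm : ∀ n, N₁ ≤ n → mm (p n ^ i n) ≤ ((d n : ℝ) + 1) * Real.exp (C * (n : ℝ) ^ b) :=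
    fun n hn => by
    have h1 : (p n ^ i n) * D n ≠ 0 := by rw [hD n hn]; exact hA0 n (hN₀₁.trans hn)
    have h2 := mm_mul (p n ^ i n) (D n)
    rw [hD n hn] at h2
    have h3 := one_le_mm (right_ne_zero_of_mul h1)
    have h4 := one_le_mm (hq0 n hn)
    refine le_trans ?_ (hmA n (hN₀₁.trans hn))
    rw [h2]
    exact le_mul_of_one_le_right (zero_le_one.trans h4) h3
  -- consecutive primes are associated
  have hcons : ∃ N₂, N₁ ≤ N₂ ∧ ∀ n, N₂ ≤ n → Associated (p n) (p (n + 1)) := by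
    obtain ⟨N₂, hN₂⟩ := hlarge (2 * c1 * 2 ^ (a + b) / (c / 2))
    refine ⟨max N₁ N₂, le_max_left _ _, fun n hn => ?_⟩
    have hNa : N₁ ≤ n := (le_max_left _ _).trans hn
    have hNb : N₁ ≤ n + 1 := by omega
    have hn1 : 1 ≤ n := hN₁1.trans hNa
    have hnr : (1 : ℝ) ≤ n := by exact_mod_cast hn1
    have hbig : 2 * c1 * 2 ^ (a + b) < n * (c / 2) := by
      have := hN₂ n ((le_max_right _ _).trans hn)
      rwa [div_lt_iff₀ (by positivity)] at this
    by_contra hnot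
    have hrel : IsRelPrime (p n ^ i n) (p (n + 1) ^ i (n + 1)) := by
      have h1 : IsRelPrime (p n) (p (n + 1)) := by
        have h2 := (hp n hNa).irreducible
        have h3 := (hp (n + 1) hNb).irreducible
        rw [h2.isRelPrime_iff_not_dvd]
        intro hdvd
        exact hnot (h2.associated_of_dvd h3 hdvd)
      exact h1.pow
    set E : ℝ := Real.exp (-(c / 2 * (n : ℝ) ^ (a + b + 1))) with hE
    have hE1 : ‖aeval θ (p n ^ i n)‖ ≤ E := hle n hNa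
    have hE2 : ‖aeval θ (p (n + 1) ^ i (n + 1))‖ ≤ E := by
      refine (hle (n + 1) hNb).trans ?_
      apply Real.exp_le_exp.2
      have h2 : (n : ℝ) ^ (a + b + 1) ≤ ((n + 1 : ℕ) : ℝ) ^ (a + b + 1) := by
        apply pow_le_pow_left₀ (by positivity)
        push_cast
        linarith
      have h3 : c / 2 * (n : ℝ) ^ (a + b + 1) ≤ c / 2 * ((n + 1 : ℕ) : ℝ) ^ (a + b + 1) :=
        mul_le_mul_of_nonneg_left h2 (by positivity)
      linarith
    have h1 := one_le_of_isRelPrime θ (hq0 n hNa) (hq0 (n + 1) hNb) hrel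
      ((hqd n hNa).trans (hdmono n)) (hqd (n + 1) hNb) hE1 hE2
    have hmono : (((d n : ℕ) : ℝ) + 1) * Real.exp (C * (n : ℝ) ^ b) ≤
        (((d (n + 1) : ℕ) : ℝ) + 1) * Real.exp (C * ((n + 1 : ℕ) : ℝ) ^ b) := by
      have g1 : ((d n : ℕ) : ℝ) ≤ ((d (n + 1) : ℕ) : ℝ) := by exact_mod_cast hdmono n
      have g2 : (n : ℝ) ^ b ≤ ((n + 1 : ℕ) : ℝ) ^ b := by
        apply pow_le_pow_left₀ (by positivity)
        push_cast
        linarith
      have g3 : Real.exp (C * (n : ℝ) ^ b) ≤ Real.exp (C * ((n + 1 : ℕ) : ℝ) ^ b) :=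
        Real.exp_le_exp.2 (mul_le_mul_of_nonneg_left g2 hC.le)
      exact mul_le_mul (by linarith) g3 (Real.exp_pos _).le (by positivity)
    have h2 : mm (p n ^ i n) * mm (p (n + 1) ^ i (n + 1)) ≤
        ((((d (n + 1) : ℕ) : ℝ) + 1) * Real.exp (C * ((n + 1 : ℕ) : ℝ) ^ b)) ^ 2 := by
      rw [sq]
      exact mul_le_mul ((hqm n hNa).trans hmono) (hqm (n + 1) hNb) (mahlerMeasure_nonneg _)
        (by positivity)
    have h2' : 0 ≤ mm (p n ^ i n) * mm (p (n + 1) ^ i (n + 1)) :=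
      mul_nonneg (mahlerMeasure_nonneg _) (mahlerMeasure_nonneg _)
    have hK0 : 0 ≤ KK θ (d (n + 1)) := zero_le_one.trans (one_le_KK θ _)
    have h3 := size_le θ hC hab (n := n + 1) (by omega) (hdle (n + 1)) 2 (by norm_num)
    have h4 : KK θ (d (n + 1)) * (mm (p n ^ i n) * mm (p (n + 1) ^ i (n + 1))) ^ (d (n + 1)) ≤
        Real.exp (2 * c1 * ((n + 1 : ℕ) : ℝ) ^ (a + b)) := by
      have h5 : (mm (p n ^ i n) * mm (p (n + 1) ^ i (n + 1))) ^ (d (n + 1)) ≤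
          ((((d (n + 1) : ℕ) : ℝ) + 1) * Real.exp (C * ((n + 1 : ℕ) : ℝ) ^ b)) ^
            (2 * d (n + 1)) := by
        rw [pow_mul]
        exact pow_le_pow_left₀ h2' h2 _
      refine (mul_le_mul_of_nonneg_left h5 hK0).trans (h3.trans (le_of_eq ?_))
      simp only [hc1, hT]
      congr 1
    have h6 : ((n + 1 : ℕ) : ℝ) ^ (a + b) ≤ 2 ^ (a + b) * (n : ℝ) ^ (a + b) := by
      rw [← mul_pow]
      apply pow_le_pow_left₀ (by positivity)
      push_cast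
      linarith
    have h7 : 2 * c1 * ((n + 1 : ℕ) : ℝ) ^ (a + b) < c / 2 * (n : ℝ) ^ (a + b + 1) := by
      have hnp : 0 < (n : ℝ) ^ (a + b) := by positivity
      calc 2 * c1 * ((n + 1 : ℕ) : ℝ) ^ (a + b) ≤ 2 * c1 * (2 ^ (a + b) * (n : ℝ) ^ (a + b)) :=
            mul_le_mul_of_nonneg_left h6 (by positivity)
        _ = (2 * c1 * 2 ^ (a + b)) * (n : ℝ) ^ (a + b) := by ring
        _ < (n * (c / 2)) * (n : ℝ) ^ (a + b) := mul_lt_mul_of_pos_right hbig hnp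
        _ = c / 2 * (n : ℝ) ^ (a + b + 1) := by rw [pow_succ]; ring
    have h8 : KK θ (d (n + 1)) * (mm (p n ^ i n) * mm (p (n + 1) ^ i (n + 1))) ^ (d (n + 1)) * E
        ≤ Real.exp (2 * c1 * ((n + 1 : ℕ) : ℝ) ^ (a + b)) * E :=
      mul_le_mul_of_nonneg_right h4 (Real.exp_pos _).le
    have h9 : Real.exp (2 * c1 * ((n + 1 : ℕ) : ℝ) ^ (a + b)) * E < 1 := by
      rw [hE, ← Real.exp_add, Real.exp_lt_one_iff]
      linarith
    linarith
  obtain ⟨N₂, hN₁₂, hN₂⟩ := hcons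
  have hass : ∀ n, N₂ ≤ n → Associated (p N₂) (p n) := by
    intro n hn
    induction n, hn using Nat.le_induction with
    | base => exact Associated.refl _
    | succ n hn ih => exact ih.trans (hN₂ n hn)
  have hnorm : ∀ n, N₂ ≤ n → ‖aeval θ (p n ^ i n)‖ = ‖aeval θ (p N₂)‖ ^ i n := by
    intro n hn
    rw [map_pow, norm_pow]
    congr 1
    obtain ⟨u, hu⟩ := hass n hn
    rw [← hu, map_mul, norm_mul]
    obtain ⟨z, hz, hzu⟩ := Polynomial.isUnit_iff.1 u.isUnit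
    rw [← hzu, aeval_C]
    rcases Int.isUnit_iff.1 hz with rfl | rfl <;> simp
  -- the prime is not constant
  have hpd : 0 < (p N₂).natDegree := by
    rw [Nat.pos_iff_ne_zero]
    intro h0
    obtain ⟨z, hz⟩ := natDegree_eq_zero.1 h0
    have hz0 : z ≠ 0 := by
      rintro rfl
      exact (hp N₂ hN₁₂).ne_zero (by rw [← hz]; simp)
    have h1 : 1 ≤ ‖aeval θ (p N₂)‖ := by
      rw [← hz, aeval_C]
      simp only [algebraMap_int_eq, eq_intCast, Complex.norm_intCast]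
      exact_mod_cast Int.one_le_abs hz0
    have h2 := hlt N₂ hN₁₂
    rw [hnorm N₂ le_rfl] at h2
    exact absurd h2 (not_lt.2 (one_le_pow₀ h1))
  have hi : ∀ n, N₂ ≤ n → i n ≤ d n := by
    intro n hn
    have h1 := hqd n (hN₁₂.trans hn)
    rw [natDegree_pow] at h1
    have h2 : (p n).natDegree = (p N₂).natDegree :=
      (natDegree_eq_of_degree_eq (degree_eq_degree_of_associated (hass n hn))).symm
    rw [h2] at h1
    exact (Nat.le_mul_of_pos_right _ hpd).trans h1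
  -- conclusion
  by_cases hz : aeval θ (p N₂) = 0
  · have h1 : IsAlgebraic ℤ θ := ⟨p N₂, (hp N₂ hN₁₂).ne_zero, hz⟩
    exact (IsFractionRing.isAlgebraic_iff ℤ ℚ ℂ).1 h1
  · exfalso
    set η : ℝ := min 1 ‖aeval θ (p N₂)‖ with hη
    have hmin : 0 < η := lt_min one_pos (norm_pos_iff.2 hz)
    set t : ℝ := - Real.log η with ht
    have ht0 : 0 ≤ t := by
      rw [ht]
      have := Real.log_nonpos hmin.le (min_le_left _ _)
      linarith
    obtain ⟨N₃, hN₃⟩ := hlarge (t * C / (c / 2))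
    set n := max N₂ N₃ with hn
    have hn2 : N₂ ≤ n := le_max_left _ _
    have hn1 : 1 ≤ n := (hN₁1.trans hN₁₂).trans hn2
    have hnr : (1 : ℝ) ≤ n := by exact_mod_cast hn1
    have hbig : t * C < n * (c / 2) := by
      have := hN₃ n (le_max_right _ _)
      rwa [div_lt_iff₀ (by positivity)] at this
    have h1 : Real.exp (-(t * (C * (n : ℝ) ^ a))) ≤ ‖aeval θ (p n ^ i n)‖ := by
      rw [hnorm n hn2]
      have g1 : η ^ i n ≤ ‖aeval θ (p N₂)‖ ^ i n := pow_le_pow_left₀ hmin.le (min_le_right _ _) _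
      refine le_trans ?_ g1
      have g2 : η ^ i n = Real.exp (-(t * (i n : ℝ))) := by
        have : η ^ i n = Real.exp (Real.log η) ^ i n := by rw [Real.exp_log hmin]
        rw [this, ← Real.exp_nat_mul]
        congr 1
        rw [ht]
        ring
      rw [g2]
      apply Real.exp_le_exp.2
      have g3 : ((i n : ℕ) : ℝ) ≤ C * (n : ℝ) ^ a := by
        have : ((i n : ℕ) : ℝ) ≤ ((d n : ℕ) : ℝ) := by exact_mod_cast hi n hn2
        exact this.trans (hdle n)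
      have := mul_le_mul_of_nonneg_left g3 ht0
      linarith
    have h2 := hle n (hN₁₂.trans hn2)
    have h3 : Real.exp (-(c / 2 * (n : ℝ) ^ (a + b + 1))) < Real.exp (-(t * (C * (n : ℝ) ^ a))) := by
      apply Real.exp_lt_exp.2
      have hna : 0 < (n : ℝ) ^ a := by positivity
      have hnb : 1 ≤ (n : ℝ) ^ b := one_le_pow₀ hnr
      have g1 : t * C * (n : ℝ) ^ a < n * (c / 2) * (n : ℝ) ^ a := mul_lt_mul_of_pos_right hbig hna
      have g2 : n * (c / 2) * (n : ℝ) ^ a ≤ n * (c / 2) * (n : ℝ) ^ a * (n : ℝ) ^ b :=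
        le_mul_of_one_le_right (by positivity) hnb
      have g3 : c / 2 * (n : ℝ) ^ (a + b + 1) = n * (c / 2) * (n : ℝ) ^ a * (n : ℝ) ^ b := by
        rw [pow_succ, pow_add]
        ring
      rw [g3]
      linarith
    linarith

end Pool.Agent.Helper32.GelfGrow
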