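import Pool.Agent.Helper32.Assemble

/-!
From the finite bounds to the limit.
-/

set_option autoImplicit false

open Finset

namespace Pool.Agent.Helper32.PowPath

/-- The set of good `N`, as in the frozen statement. -/
def Good (t n : ℕ) : Set ℕ := {N : ℕ | ∀ G : SimpleGraph (Fin N), ∃ f : Fin n → Fin N, StrictMono f ∧
                ((∀ i j : Fin n, i < j → (j : ℕ) ≤ (i : ℕ) + t → G.Adj (f i) (f j)) ∨
                 (∀ i j : Fin n, i < j → (j : ℕ) ≤ (i : ℕ) + t → Gᶜ.Adj (f i) (f j)))}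

lemma good_of_large (t : ℕ) (ht : 1 ≤ t) (a : ℝ) (ha : 1 < a) : ∃ A : ℝ, 0 < A ∧ ∀ n N : ℕ, 2 ≤ n →
    A * (((n : ℝ) + 1) * (n - 1)) ^ a < N → N ∈ Good t n := by
  obtain ⟨A, hA, h⟩ := path_vs_path t ht a ha
  refine ⟨A, hA, ?_⟩
  intro n N hn hN G
  have hN0 : (0 : ℝ) < N := by
    refine lt_of_le_of_lt ?_ hN
    have : (1 : ℝ) ≤ n := by exact_mod_cast (by omega : 1 ≤ n)
    have h2 : (0 : ℝ) ≤ ((n : ℝ) + 1) * (n - 1) := mul_nonneg (by positivity) (by linarith)
    positivity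
  have hN0' : 0 < N := by exact_mod_cast hN0
  have : Nonempty (Fin N) := ⟨⟨0, hN0'⟩⟩
  have hmk : ∀ E : Fin N → Fin N → Prop, HasPath E t univ n → ∃ f : Fin n → Fin N, StrictMono f ∧
      ∀ i j : Fin n, i < j → (j : ℕ) ≤ (i : ℕ) + t → E (f i) (f j) := by
    rintro E ⟨f, h1, h2, h3⟩
    refine ⟨fun i => f i, ?_, ?_⟩
    · intro i j hij
      exact h2 i j hij j.2
    · intro i j hij hijt
      exact h3 i j hij j.2 hijt
  by_cases hR : HasPath G.Adj t univ n
  · obtain ⟨f, hf1, hf2⟩ := hmk _ hR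
    exact ⟨f, hf1, Or.inl hf2⟩
  by_cases hB : HasPath (fun u v => ¬ G.Adj u v) t univ n
  · obtain ⟨f, hf1, hf2⟩ := hmk _ hB
    refine ⟨f, hf1, Or.inr ?_⟩
    intro i j hij hijt
    rw [SimpleGraph.compl_adj]
    exact ⟨(hf1 hij).ne, hf2 i j hij hijt⟩
  exfalso
  obtain ⟨b, rfl⟩ : ∃ b, n = b + 1 := ⟨n - 1, by omega⟩
  have := h (Fin N) G.Adj univ b hR hB
  rw [card_univ, Fintype.card_fin] at this
  push_cast at hN
  have e : ((b : ℝ) + 1 + 1) * (b + 1 - 1) = ((b : ℝ) + 2) * b := by ring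
  rw [e] at hN
  linarith

lemma lt_of_good (t : ℕ) (ht : 1 ≤ t) (n N : ℕ) (hn : 2 ≤ n) (h : N ∈ Good t n) : (n - 1) ^ 2 < N := by
  by_contra hcon
  push Not at hcon
  let G : SimpleGraph (Fin N) :=
    { Adj := fun u v => u ≠ v ∧ (u : ℕ) / (n - 1) = (v : ℕ) / (n - 1)
      symm := ⟨fun u v h => ⟨h.1.symm, h.2.symm⟩⟩
      loopless := ⟨fun u h => h.1 rfl⟩ }
  obtain ⟨f, hf, h1 | h1⟩ := h G
  · -- all in the same block
    have hstep : ∀ i : ℕ, ∀ hi : i < n, (f ⟨i, hi⟩ : ℕ) / (n - 1) = (f ⟨0, by omega⟩ : ℕ) / (n - 1) := by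
      intro i
      induction i with
      | zero => intro hi; rfl
      | succ i ih =>
        intro hi
        have := h1 ⟨i, by omega⟩ ⟨i + 1, hi⟩ (by simp) (by simp; omega)
        rw [← ih (by omega)]
        exact this.2.symm
    have hinj : Set.InjOn (fun i : Fin n => (f i : ℕ)) (univ : Finset (Fin n)) := by
      intro i _ j _ hij
      exact hf.injective (Fin.ext hij)
    set c := (f ⟨0, by omega⟩ : ℕ) / (n - 1) with hc
    have hmaps : ∀ i ∈ (univ : Finset (Fin n)), (f i : ℕ) ∈ Ico (c * (n - 1)) (c * (n - 1) + (n - 1)) := by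
      intro i _
      have h2 := hstep i i.2
      have e1 := Nat.div_add_mod (f i : ℕ) (n - 1)
      have e2 := Nat.mod_lt (f i : ℕ) (show 0 < n - 1 by omega)
      have h3 : (f i : ℕ) / (n - 1) = c := h2
      rw [h3, mul_comm] at e1
      rw [mem_Ico]
      omega
    have hcard := card_le_card_of_injOn _ hmaps hinj
    rw [card_univ, Fintype.card_fin, Nat.card_Ico, Nat.add_sub_cancel_left] at hcard
    omega
  · have hstep : ∀ i : ℕ, ∀ hi : i < n, i ≤ (f ⟨i, hi⟩ : ℕ) / (n - 1) := by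
      intro i
      induction i with
      | zero => intro hi; exact Nat.zero_le _
      | succ i ih =>
        intro hi
        have h2 := h1 ⟨i, by omega⟩ ⟨i + 1, hi⟩ (by simp) (by simp; omega)
        rw [SimpleGraph.compl_adj] at h2
        have h3 := ih (by omega)
        have hlt : f ⟨i, by omega⟩ < f ⟨i + 1, hi⟩ := hf (by simp)
        have h4 : (f ⟨i, by omega⟩ : ℕ) / (n - 1) ≤ (f ⟨i + 1, hi⟩ : ℕ) / (n - 1) :=
          Nat.div_le_div_right (Fin.le_def.1 hlt.le)
        have h5 : (f ⟨i, by omega⟩ : ℕ) / (n - 1) ≠ (f ⟨i + 1, hi⟩ : ℕ) / (n - 1) := by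
          intro heq
          exact h2.2 ⟨hlt.ne, heq⟩
        omega
    have h2 := hstep (n - 1) (by omega)
    have h3 : (f ⟨n - 1, by omega⟩ : ℕ) < N := (f _).2
    have h4 : (n - 1) * (n - 1) ≤ (f ⟨n - 1, by omega⟩ : ℕ) := by
      have := (Nat.le_div_iff_mul_le (show 0 < n - 1 by omega)).1 h2
      exact this
    rw [pow_two] at hcon
    omega

theorem limit (t : ℕ) (ht : 1 ≤ t) :
    Filter.Tendsto (fun n : ℕ => Real.log ((sInf (Good t n) : ℕ) : ℝ) / Real.log (n : ℝ))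
      Filter.atTop (nhds 2) := by
  rw [Metric.tendsto_atTop]
  intro ε hε
  -- upper bound
  set a : ℝ := 1 + ε / 8 with ha
  have ha1 : 1 < a := by rw [ha]; linarith
  obtain ⟨A, hA, hgood⟩ := good_of_large t ht a ha1
  have hlog : Filter.Tendsto (fun n : ℕ => Real.log (n : ℝ)) Filter.atTop Filter.atTop :=
    Real.tendsto_log_atTop.comp tendsto_natCast_atTop_atTop
  obtain ⟨n0, hn0⟩ := (hlog.eventually_ge_atTop (max 1 (max (4 * Real.log (A + 1) / ε) (4 * 2 / ε)))).exists_forall_of_atTop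
  refine ⟨max n0 2, ?_⟩
  intro n hn
  have hn2 : 2 ≤ n := le_trans (le_max_right _ _) hn
  have hL := hn0 n (le_trans (le_max_left _ _) hn)
  set L : ℝ := Real.log n with hLdef
  have hL1 : 1 ≤ L := le_trans (le_max_left _ _) hL
  have hL2 : 4 * Real.log (A + 1) / ε ≤ L := le_trans (le_trans (le_max_left _ _) (le_max_right _ _)) hL
  have hL3 : 4 * 2 / ε ≤ L := le_trans (le_trans (le_max_right _ _) (le_max_right _ _)) hL
  have hL0 : 0 < L := by linarith
  have hnr : (2 : ℝ) ≤ n := by exact_mod_cast hn2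
  have hnpos : (0 : ℝ) < n := by linarith
  -- the set is nonempty
  set B : ℝ := A * (((n : ℝ) + 1) * (n - 1)) ^ a with hB
  have hprod : 0 < ((n : ℝ) + 1) * (n - 1) := mul_pos (by linarith) (by linarith)
  have hB0 : 0 < B := by rw [hB]; positivity
  have hmem : ⌊B⌋₊ + 1 ∈ Good t n := hgood n _ hn2 (by push_cast; exact Nat.lt_floor_add_one B)
  have hle : sInf (Good t n) ≤ ⌊B⌋₊ + 1 := Nat.sInf_le hmem
  have hin : sInf (Good t n) ∈ Good t n := Nat.sInf_mem ⟨_, hmem⟩
  have hlow := lt_of_good t ht n _ hn2 hin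
  set R := sInf (Good t n) with hR
  have hRup : (R : ℝ) ≤ (A + 1) * (n : ℝ) ^ (2 * a) := by
    have h1 : (R : ℝ) ≤ B + 1 := by
      have : (R : ℝ) ≤ (⌊B⌋₊ : ℝ) + 1 := by exact_mod_cast hle
      have := Nat.floor_le hB0.le
      linarith
    have h2 : (((n : ℝ) + 1) * (n - 1)) ^ a ≤ (n : ℝ) ^ (2 * a) := by
      have e1 : (n : ℝ) ^ (2 * a) = ((n : ℝ) ^ (2 : ℝ)) ^ a := by rw [← Real.rpow_mul hnpos.le]
      rw [e1]
      refine Real.rpow_le_rpow hprod.le ?_ (by linarith)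
      have : (n : ℝ) ^ (2 : ℝ) = (n : ℝ) ^ 2 := by exact_mod_cast Real.rpow_natCast (n : ℝ) 2
      rw [this]
      nlinarith
    have h3 : (1 : ℝ) ≤ (n : ℝ) ^ (2 * a) := Real.one_le_rpow (by linarith) (by linarith)
    have h4 : B ≤ A * (n : ℝ) ^ (2 * a) := by rw [hB]; exact mul_le_mul_of_nonneg_left h2 hA.le
    linarith
  have hRlow : ((n : ℝ) / 2) ^ 2 ≤ R := by
    have h1 : (((n - 1) ^ 2 : ℕ) : ℝ) < R := by exact_mod_cast hlow
    push_cast at h1
    rw [Nat.cast_sub (by omega)] at h1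
    push_cast at h1
    have h2 : (n : ℝ) / 2 ≤ n - 1 := by linarith
    nlinarith
  have hRpos : (0 : ℝ) < R := lt_of_lt_of_le (by positivity) hRlow
  have hlogup : Real.log R ≤ Real.log (A + 1) + 2 * a * L := by
    calc Real.log R ≤ Real.log ((A + 1) * (n : ℝ) ^ (2 * a)) := Real.log_le_log hRpos hRup
      _ = Real.log (A + 1) + 2 * a * L := by
          rw [Real.log_mul (by positivity) (by positivity), Real.log_rpow hnpos]
  have hloglow : 2 * L - 2 ≤ Real.log R := by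
    have h1 : Real.log (((n : ℝ) / 2) ^ 2) ≤ Real.log R := Real.log_le_log (by positivity) hRlow
    rw [Real.log_pow, Real.log_div (by positivity) (by norm_num)] at h1
    push_cast at h1
    have h2 : Real.log 2 ≤ 1 := by
      have := Real.log_le_sub_one_of_pos (show (0 : ℝ) < 2 by norm_num)
      linarith
    linarith
  rw [Real.dist_eq, abs_lt]
  constructor
  · have : 2 - ε < Real.log R / L := by
      rw [lt_div_iff₀ hL0]
      have h1 : 8 ≤ ε * L := by
        rw [div_le_iff₀ hε] at hL3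
        linarith
      nlinarith
    linarith
  · have : Real.log R / L < 2 + ε := by
      rw [div_lt_iff₀ hL0]
      have h1 : 4 * Real.log (A + 1) ≤ ε * L := by
        rw [div_le_iff₀ hε] at hL2
        linarith
      have h2 : 2 * a * L = 2 * L + ε * L / 4 := by rw [ha]; ring
      have h3 : 0 < ε * L := mul_pos hε hL0
      nlinarith
    linarith

end Pool.Agent.Helper32.PowPath
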