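import Pool.Agent.Helper32.Step

/-!
The iteration of the halving step, and the main induction.
-/

set_option autoImplicit false

open Finset

namespace Pool.Agent.Helper32.PowPath

variable {V : Type} [LinearOrder V]

/-- Consecutive pieces of almost equal sizes. -/
lemma pieces (X : Finset V) (q : ℕ) (hq : 0 < q) : ∃ P : ℕ → Finset V, (∀ i, P i ⊆ X) ∧
    (∀ i j, i < j → ∀ u ∈ P i, ∀ v ∈ P j, u < v) ∧ (∀ i, (P i).card ≤ X.card / q + 1) ∧
    ∑ i ∈ range q, (P i).card = X.card := by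
  classical
  set s := X.card / q + 1 with hs
  have hspos : 0 < s := Nat.succ_pos _
  set rk : V → ℕ := fun v => (X.filter (fun u => u < v)).card with hrk
  have hmono : ∀ u v, u ≤ v → rk u ≤ rk v := by
    intro u v huv
    refine card_le_card fun w hw => ?_
    rw [mem_filter] at hw ⊢
    exact ⟨hw.1, lt_of_lt_of_le hw.2 huv⟩
  have hstrict : ∀ u ∈ X, ∀ v, u < v → rk u < rk v := by
    intro u hu v huv
    refine card_lt_card ?_
    rw [ssubset_iff_of_subset]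
    · refine ⟨u, ?_, ?_⟩
      · rw [mem_filter]; exact ⟨hu, huv⟩
      · rw [mem_filter]; exact fun h => lt_irrefl _ h.2
    · intro w hw
      rw [mem_filter] at hw ⊢
      exact ⟨hw.1, hw.2.trans huv⟩
  have hinj : ∀ u ∈ X, ∀ v ∈ X, rk u = rk v → u = v := by
    intro u hu v hv h
    rcases lt_trichotomy u v with h' | h' | h'
    · have := hstrict u hu v h'; omega
    · exact h'
    · have := hstrict v hv u h'; omega
  have hlt : ∀ v ∈ X, rk v < X.card := by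
    intro v hv
    refine card_lt_card ?_
    rw [ssubset_iff_of_subset (filter_subset _ _)]
    exact ⟨v, hv, by rw [mem_filter]; exact fun h => lt_irrefl _ h.2⟩
  refine ⟨fun i => X.filter (fun v => rk v / s = i), fun i => filter_subset _ _, ?_, ?_, ?_⟩
  · intro i j hij u hu v hv
    rw [mem_filter] at hu hv
    by_contra hcon
    push Not at hcon
    have := Nat.div_le_div_right (c := s) (hmono v u hcon)
    omega
  · intro i
    have h1 : (X.filter (fun v => rk v / s = i)).card ≤ (Ico (i * s) (i * s + s)).card := by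
      refine card_le_card_of_injOn rk ?_ ?_
      · intro v hv
        have hv' := (mem_filter.1 hv).2
        rw [coe_Ico, Set.mem_Ico]
        have e1 := Nat.div_add_mod (rk v) s
        have e2 := Nat.mod_lt (rk v) hspos
        rw [hv'] at e1
        constructor
        · rw [mul_comm]; omega
        · rw [mul_comm]; omega
      · intro u hu v hv h
        exact hinj u (mem_filter.1 hu).1 v (mem_filter.1 hv).1 h
    rw [Nat.card_Ico, Nat.add_sub_cancel_left] at h1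
    exact h1
  · have : X.card = ∑ i ∈ range q, (X.filter (fun v => rk v / s = i)).card := by
      refine card_eq_sum_card_fiberwise ?_
      intro v hv
      have h1 := hlt v hv
      have h2 : X.card < q * s := Nat.lt_mul_div_succ _ hq
      rw [coe_range, Set.mem_Iio]
      exact Nat.div_lt_of_lt_mul (by rw [mul_comm]; omega)
    exact this.symm

lemma iterate [Fintype V] [Nonempty V] (E : V → V → Prop) (t t' h1 h2 : ℕ) (ht : 1 ≤ t) (ht' : 1 ≤ t')
    (hh1 : 0 < h1) (hh2 : 0 < h2)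
    (hη : ((t * h2 + t * 2 ^ h1 * h1 : ℕ) : ℝ) / (h1 * h2) ≤ (1 / (4 * t')) ^ 2)
    (a A δ D : ℝ) (ha : 1 < a) (hA : 0 < A) (hδ : 0 < δ) (hδ1 : δ ≤ 1) (hD0 : 0 ≤ D)
    (X : Finset V) (q b : ℕ) (P : ℕ → Finset V) (hPX : ∀ i, P i ⊆ X)
    (hPlt : ∀ i j, i < j → ∀ u ∈ P i, ∀ v ∈ P j, u < v)
    (hPD : ∀ i, ((P i).card : ℝ) ≤ D) (hPc : ∀ i, (P i).card < X.card)
    (hb : ¬ HasPath (fun u v => ¬ E u v) t' X (b + 1))
    (IH : ∀ Y, Y ⊆ X → Y.card < X.card → ∀ m b', Lab E t h1 h2 (fun _ => Y) m →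
      ¬ HasPath (fun u v => ¬ E u v) t' Y (b' + 1) → (Y.card : ℝ) ≤ A * (((m : ℝ) + 1) * b') ^ a) :
    ∀ (k : ℕ) (U : ℕ → Finset V) (m : ℕ), (∀ i, U i ⊆ P i) → Lab E t h1 h2 U m →
      (1 - δ) ^ k * ∑ i ∈ range q, ((U i).card : ℝ) ≤
        2 ^ k * (q * (A * ((((m : ℝ) - 1) / 2 ^ k + 2) * b) ^ a)) +
        ((2 / δ * A) ^ (1 / a) * D ^ (1 - 1 / a) * b) * k * (((m : ℝ) - 1) + 2 ^ (k + 1)) := by
  intro k
  have hc0 : 0 ≤ (2 / δ * A) ^ (1 / a) * D ^ (1 - 1 / a) * b := by positivity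
  induction k with
  | zero =>
    intro U m hU hLab
    have h1' : ∀ i ∈ range q, ((U i).card : ℝ) ≤ A * (((m : ℝ) + 1) * b) ^ a := by
      intro i _
      refine IH (U i) ((hU i).trans (hPX i)) (lt_of_le_of_lt (card_le_card (hU i)) (hPc i)) m b
        (hLab.restrict (Subset.refl _)) ?_
      intro hp
      exact hb (hp.mono ((hU i).trans (hPX i)) (le_refl _))
    have h2' := sum_le_sum h1'
    rw [sum_const, card_range, nsmul_eq_mul] at h2'
    have e : ((m : ℝ) - 1) / 2 ^ 0 + 2 = (m : ℝ) + 1 := by ring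
    rw [e]
    simpa using h2'
  | succ k ih =>
    intro U m hU hLab
    obtain ⟨U1, U2, hU1, hU2, hL1, hL2, hmass⟩ := step E t t' h1 h2 ht ht' hh1 hh2 hη a A δ D ha hA hδ hD0
      X q b P hPX hPlt hPD hPc hb IH U m hU hLab
    set c : ℝ := (2 / δ * A) ^ (1 / a) * D ^ (1 - 1 / a) * b with hc
    set m' := (m + 1) / 2 with hm'
    have hm'r : (m' : ℝ) - 1 ≤ ((m : ℝ) - 1) / 2 := by
      have : 2 * m' ≤ m + 1 := by omega
      have : (2 : ℝ) * m' ≤ m + 1 := by exact_mod_cast this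
      linarith
    have hm'0 : (0 : ℝ) ≤ m' := Nat.cast_nonneg _
    have h2k : (0 : ℝ) < 2 ^ k := by positivity
    have h2k1 : (1 : ℝ) ≤ 2 ^ k := one_le_pow₀ (by norm_num)
    have hpow1 : (1 - δ) ^ k ≤ 1 := pow_le_one₀ (by linarith) (by linarith)
    have hpow0 : 0 ≤ (1 - δ) ^ k := pow_nonneg (by linarith) _
    have hbound : ∀ W : ℕ → Finset V, (∀ i, W i ⊆ P i) → Lab E t h1 h2 W m' →
        (1 - δ) ^ k * ∑ i ∈ range q, ((W i).card : ℝ) ≤
        2 ^ k * (q * (A * ((((m : ℝ) - 1) / 2 ^ (k + 1) + 2) * b) ^ a)) +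
        c * k * (((m : ℝ) - 1) / 2 + 2 ^ (k + 1)) := by
      intro W hW hLW
      have h := ih W m' hW hLW
      have e1 : ((m' : ℝ) - 1) / 2 ^ k + 2 ≤ ((m : ℝ) - 1) / 2 ^ (k + 1) + 2 := by
        have : ((m : ℝ) - 1) / 2 ^ (k + 1) = (((m : ℝ) - 1) / 2) / 2 ^ k := by
          rw [pow_succ]; field_simp
        rw [this]
        have := div_le_div_of_nonneg_right hm'r h2k.le
        linarith
      have e0 : 0 ≤ ((m' : ℝ) - 1) / 2 ^ k + 2 := by
        have : -1 ≤ ((m' : ℝ) - 1) / 2 ^ k := by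
          rw [le_div_iff₀ h2k]
          nlinarith
        linarith
      have e2 : (((m' : ℝ) - 1) / 2 ^ k + 2) * b ≤ (((m : ℝ) - 1) / 2 ^ (k + 1) + 2) * b :=
        mul_le_mul_of_nonneg_right e1 (Nat.cast_nonneg _)
      have e3 : ((((m' : ℝ) - 1) / 2 ^ k + 2) * b) ^ a ≤ ((((m : ℝ) - 1) / 2 ^ (k + 1) + 2) * b) ^ a :=
        Real.rpow_le_rpow (mul_nonneg e0 (Nat.cast_nonneg _)) e2 (by linarith)
      have e4 : (2 : ℝ) ^ k * (q * (A * ((((m' : ℝ) - 1) / 2 ^ k + 2) * b) ^ a)) ≤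
          2 ^ k * (q * (A * ((((m : ℝ) - 1) / 2 ^ (k + 1) + 2) * b) ^ a)) := by
        refine mul_le_mul_of_nonneg_left ?_ h2k.le
        refine mul_le_mul_of_nonneg_left ?_ (Nat.cast_nonneg _)
        exact mul_le_mul_of_nonneg_left e3 hA.le
      have e5 : c * k * (((m' : ℝ) - 1) + 2 ^ (k + 1)) ≤ c * k * (((m : ℝ) - 1) / 2 + 2 ^ (k + 1)) := by
        refine mul_le_mul_of_nonneg_left ?_ (mul_nonneg hc0 (Nat.cast_nonneg _))
        linarith
      linarith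
    have b1 := hbound U1 hU1 hL1
    have b2 := hbound U2 hU2 hL2
    have hm0 : (0 : ℝ) ≤ (m : ℝ) + 1 := by positivity
    have hcm : 0 ≤ c * ((m : ℝ) + 1) := mul_nonneg hc0 hm0
    calc (1 - δ) ^ (k + 1) * ∑ i ∈ range q, ((U i).card : ℝ)
        = (1 - δ) ^ k * ((1 - δ) * ∑ i ∈ range q, ((U i).card : ℝ)) := by ring
      _ ≤ (1 - δ) ^ k * (∑ i ∈ range q, ((U1 i).card : ℝ) + ∑ i ∈ range q, ((U2 i).card : ℝ)
            + c * ((m : ℝ) + 1)) := mul_le_mul_of_nonneg_left hmass hpow0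
      _ = (1 - δ) ^ k * ∑ i ∈ range q, ((U1 i).card : ℝ) + (1 - δ) ^ k * ∑ i ∈ range q, ((U2 i).card : ℝ)
            + (1 - δ) ^ k * (c * ((m : ℝ) + 1)) := by ring
      _ ≤ (1 - δ) ^ k * ∑ i ∈ range q, ((U1 i).card : ℝ) + (1 - δ) ^ k * ∑ i ∈ range q, ((U2 i).card : ℝ)
            + c * ((m : ℝ) + 1) := by
          have := mul_le_mul_of_nonneg_right hpow1 hcm
          linarith
      _ ≤ 2 * (2 ^ k * (q * (A * ((((m : ℝ) - 1) / 2 ^ (k + 1) + 2) * b) ^ a)) +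
            c * k * (((m : ℝ) - 1) / 2 + 2 ^ (k + 1))) + c * ((m : ℝ) + 1) := by linarith
      _ = 2 ^ (k + 1) * (q * (A * ((((m : ℝ) - 1) / 2 ^ (k + 1) + 2) * b) ^ a)) +
            c * k * (((m : ℝ) - 1) + 2 ^ (k + 1 + 1)) + c * ((m : ℝ) + 1) := by ring
      _ ≤ 2 ^ (k + 1) * (q * (A * ((((m : ℝ) - 1) / 2 ^ (k + 1) + 2) * b) ^ a)) +
            c * ((k + 1 : ℕ) : ℝ) * (((m : ℝ) - 1) + 2 ^ (k + 1 + 1)) := by
          have h4 : (m : ℝ) + 1 ≤ ((m : ℝ) - 1) + 2 ^ (k + 1 + 1) := by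
            have : (2 : ℝ) ^ (k + 1 + 1) = 4 * 2 ^ k := by ring
            rw [this]
            linarith
          have h5 := mul_le_mul_of_nonneg_left h4 hc0
          push_cast
          linarith

/-- The main induction: a set with `r` labels and without long paths of the other colour is small. -/
theorem main_induction [Fintype V] [Nonempty V] (E : V → V → Prop) (t t' h1 h2 : ℕ) (ht : 1 ≤ t)
    (ht' : 1 ≤ t') (hh1 : 0 < h1) (hh2 : 0 < h2)
    (hη : ((t * h2 + t * 2 ^ h1 * h1 : ℕ) : ℝ) / (h1 * h2) ≤ (1 / (4 * t')) ^ 2)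
    (a A : ℝ) (ha : 1 < a) (k q : ℕ) (hk : 1 ≤ k) (hq : 2 ≤ q) (hAq : (q : ℝ) ≤ A)
    (N1 : 2 * k * (8 * k : ℝ) ^ (1 / a) * (2 / q : ℝ) ^ (1 - 1 / a) ≤ 1 / 4)
    (N2 : (2 : ℝ) ^ k * q * (2 / 2 ^ k) ^ a ≤ 1 / 4)
    (X0 : Finset V)
    (base : ∀ X, X ⊆ X0 → ∀ r b, r < 2 ^ (k + 1) → Lab E t h1 h2 (fun _ => X) r →
      ¬ HasPath (fun u v => ¬ E u v) t' X (b + 1) → (X.card : ℝ) ≤ A * (b : ℝ) ^ a) :
    ∀ (n : ℕ) (X : Finset V), X ⊆ X0 → X.card = n → ∀ r b, Lab E t h1 h2 (fun _ => X) r →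
      ¬ HasPath (fun u v => ¬ E u v) t' X (b + 1) → (X.card : ℝ) ≤ A * (((r : ℝ) + 1) * b) ^ a := by
  intro n
  induction n using Nat.strong_induction_on with
  | _ n ih =>
  intro X hX hXn r b hLab hb
  by_contra hcon
  push Not at hcon
  have hq0 : (0 : ℝ) < q := by positivity
  have hA0 : 0 < A := lt_of_lt_of_le hq0 hAq
  have ha0 : 0 < a := by linarith
  have hk0 : (0 : ℝ) < k := by exact_mod_cast hk
  have hXpos' : (0 : ℝ) < X.card := lt_of_le_of_lt (by positivity) hcon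
  have hXpos : 0 < X.card := by exact_mod_cast hXpos'
  have hb1 : 1 ≤ b := by
    rcases Nat.eq_zero_or_pos b with h0 | h0
    · exfalso
      rw [h0] at hb
      exact hb (hasPath_one (card_pos.1 hXpos))
    · exact h0
  have hb1' : (1 : ℝ) ≤ b := by exact_mod_cast hb1
  have hrb : (1 : ℝ) ≤ ((r : ℝ) + 1) * b := by
    have : (0 : ℝ) ≤ r := Nat.cast_nonneg _
    nlinarith
  have hXq : (q : ℝ) < X.card := by
    have h1' : (1 : ℝ) ≤ (((r : ℝ) + 1) * b) ^ a := Real.one_le_rpow hrb ha0.le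
    have h2' : A * 1 ≤ A * (((r : ℝ) + 1) * b) ^ a := mul_le_mul_of_nonneg_left h1' hA0.le
    linarith
  have hXq' : q < X.card := by exact_mod_cast hXq
  have hr : 2 ^ (k + 1) ≤ r := by
    by_contra hcon2
    push Not at hcon2
    have h1' := base X hX r b hcon2 hLab hb
    have h2' : (b : ℝ) ^ a ≤ (((r : ℝ) + 1) * b) ^ a := by
      refine Real.rpow_le_rpow (Nat.cast_nonneg _) ?_ ha0.le
      have : (0 : ℝ) ≤ r := Nat.cast_nonneg _
      nlinarith
    have h3' := mul_le_mul_of_nonneg_left h2' hA0.le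
    linarith
  have hr' : (2 : ℝ) * 2 ^ k ≤ r := by
    have : (2 : ℝ) ^ (k + 1) ≤ r := by exact_mod_cast hr
    rw [pow_succ] at this
    linarith
  -- pieces
  obtain ⟨P, hPX, hPlt, hPs, hPsum⟩ := pieces X q (by omega)
  have hPc : ∀ i, (P i).card < X.card := by
    intro i
    refine lt_of_le_of_lt (hPs i) ?_
    have h3 : X.card / q ≤ X.card / 2 := Nat.div_le_div_left hq (by norm_num)
    omega
  set D : ℝ := 2 * X.card / q with hD
  have hD0 : 0 < D := by positivity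
  have hPD : ∀ i, ((P i).card : ℝ) ≤ D := by
    intro i
    have h1' : ((P i).card : ℝ) ≤ ((X.card / q + 1 : ℕ) : ℝ) := by exact_mod_cast hPs i
    have h2' : ((X.card / q : ℕ) : ℝ) ≤ (X.card : ℝ) / q := Nat.cast_div_le
    push_cast at h1'
    have h3' : (1 : ℝ) ≤ X.card / q := by
      rw [le_div_iff₀ hq0]; linarith
    have h4' : D = X.card / q + X.card / q := by rw [hD]; ring
    rw [h4']
    linarith
  have hLabP : Lab E t h1 h2 P r := by
    obtain ⟨φ, g1, g2⟩ := hLab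
    refine ⟨φ, fun i L R hbc hL hR => g1 0 L R hbc (hL.trans (hPX i)) (hR.trans (hPX i)), ?_⟩
    intro i j L R L' R' hb hL hR hb' hL' hR' hl
    exact g2 0 0 L R L' R' hb (hL.trans (hPX i)) (hR.trans (hPX i)) hb' (hL'.trans (hPX j))
      (hR'.trans (hPX j)) hl
  set δ : ℝ := 1 / (4 * k) with hδ
  have hδ0 : 0 < δ := by positivity
  have hk1 : (1 : ℝ) ≤ k := by exact_mod_cast hk
  have hδ1 : δ ≤ 1 := by
    rw [hδ, div_le_one (by positivity)]
    linarith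
  have IH : ∀ Y, Y ⊆ X → Y.card < X.card → ∀ m b', Lab E t h1 h2 (fun _ => Y) m →
      ¬ HasPath (fun u v => ¬ E u v) t' Y (b' + 1) → (Y.card : ℝ) ≤ A * (((m : ℝ) + 1) * b') ^ a := by
    intro Y hY hYc m b' hLm hbm
    exact ih Y.card (by omega) Y (hY.trans hX) rfl m b' hLm hbm
  have hit := iterate E t t' h1 h2 ht ht' hh1 hh2 hη a A δ D ha hA0 hδ0 hδ1 hD0.le X q b P hPX hPlt hPD hPc
    hb IH k P r (fun i => Subset.refl _) hLabP
  have hsum : ∑ i ∈ range q, ((P i).card : ℝ) = X.card := by exact_mod_cast hPsum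
  rw [hsum] at hit
  set x : ℝ := (X.card : ℝ) with hx
  set y : ℝ := ((r : ℝ) + 1) * b with hy
  have hy0 : 0 < y := by linarith
  -- left side
  have hleft : (3 / 4 : ℝ) * x ≤ (1 - δ) ^ k * x := by
    refine mul_le_mul_of_nonneg_right ?_ hXpos'.le
    have h1' := one_add_mul_le_pow (a := -δ) (by linarith) k
    have h2' : (k : ℝ) * -δ = -(1 / 4) := by
      rw [hδ]; field_simp
    rw [h2'] at h1'
    have h3' : (1 + -δ) = 1 - δ := by ring
    rw [h3'] at h1'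
    linarith
  -- first term
  have h2k : (0 : ℝ) < 2 ^ k := by positivity
  have hr0 : (0 : ℝ) ≤ r := Nat.cast_nonneg _
  have hfirst : (2 : ℝ) ^ k * (q * (A * ((((r : ℝ) - 1) / 2 ^ k + 2) * b) ^ a)) ≤ 1 / 4 * x := by
    have e1 : ((r : ℝ) - 1) / 2 ^ k + 2 ≤ (2 / 2 ^ k) * ((r : ℝ) + 1) := by
      have e2 : (2 : ℝ) ≤ r / 2 ^ k := by
        rw [le_div_iff₀ h2k]; linarith
      have e3 : (2 / 2 ^ k) * ((r : ℝ) + 1) = r / 2 ^ k + r / 2 ^ k + 2 / 2 ^ k := by ring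
      have e4 : ((r : ℝ) - 1) / 2 ^ k = r / 2 ^ k - 1 / 2 ^ k := by ring
      have e5 : (0 : ℝ) < 1 / 2 ^ k := by positivity
      have e6 : (0 : ℝ) < 2 / 2 ^ k := by positivity
      rw [e3, e4]
      linarith
    have e0 : 0 ≤ ((r : ℝ) - 1) / 2 ^ k + 2 := by
      have : -1 ≤ ((r : ℝ) - 1) / 2 ^ k := by
        rw [le_div_iff₀ h2k]
        have h2k1 : (1 : ℝ) ≤ 2 ^ k := one_le_pow₀ (by norm_num)
        nlinarith
      linarith
    have e7 : (((r : ℝ) - 1) / 2 ^ k + 2) * b ≤ (2 / 2 ^ k) * y := by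
      calc (((r : ℝ) - 1) / 2 ^ k + 2) * b ≤ ((2 / 2 ^ k) * ((r : ℝ) + 1)) * b :=
            mul_le_mul_of_nonneg_right e1 (Nat.cast_nonneg _)
        _ = (2 / 2 ^ k) * y := by rw [hy]; ring
    have e8 : ((((r : ℝ) - 1) / 2 ^ k + 2) * b) ^ a ≤ (2 / 2 ^ k) ^ a * y ^ a := by
      calc ((((r : ℝ) - 1) / 2 ^ k + 2) * b) ^ a ≤ ((2 / 2 ^ k) * y) ^ a :=
            Real.rpow_le_rpow (mul_nonneg e0 (Nat.cast_nonneg _)) e7 ha0.le
        _ = (2 / 2 ^ k) ^ a * y ^ a := Real.mul_rpow (by positivity) hy0.le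
    calc (2 : ℝ) ^ k * (q * (A * ((((r : ℝ) - 1) / 2 ^ k + 2) * b) ^ a))
        ≤ 2 ^ k * (q * (A * ((2 / 2 ^ k) ^ a * y ^ a))) := by
          refine mul_le_mul_of_nonneg_left ?_ h2k.le
          refine mul_le_mul_of_nonneg_left ?_ hq0.le
          exact mul_le_mul_of_nonneg_left e8 hA0.le
      _ = ((2 : ℝ) ^ k * q * (2 / 2 ^ k) ^ a) * (A * y ^ a) := by ring
      _ ≤ 1 / 4 * (A * y ^ a) := mul_le_mul_of_nonneg_right N2 (by positivity)
      _ ≤ 1 / 4 * x := by linarith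
  -- second term
  have hexp : 0 ≤ 1 - 1 / a := by
    rw [sub_nonneg, div_le_one ha0]; linarith
  have hsecond : ((2 / δ * A) ^ (1 / a) * D ^ (1 - 1 / a) * b) * k * (((r : ℝ) - 1) + 2 ^ (k + 1)) ≤
      1 / 4 * x := by
    have e1 : ((r : ℝ) - 1) + 2 ^ (k + 1) ≤ 2 * ((r : ℝ) + 1) := by
      rw [pow_succ]; linarith
    have e2 : 2 / δ * A = (8 * k) * A := by
      rw [hδ]; field_simp; ring
    have e3 : (2 / δ * A) ^ (1 / a) = (8 * k : ℝ) ^ (1 / a) * A ^ (1 / a) := by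
      rw [e2]
      exact Real.mul_rpow (by positivity) hA0.le
    have e4 : D ^ (1 - 1 / a) = (2 / q : ℝ) ^ (1 - 1 / a) * x ^ (1 - 1 / a) := by
      have : D = (2 / q) * x := by rw [hD]; ring
      rw [this]
      exact Real.mul_rpow (by positivity) hXpos'.le
    have e5 : A ^ (1 / a) * y ≤ x ^ (1 / a) := by
      have : A ^ (1 / a) * y = (A * y ^ a) ^ (1 / a) := by
        rw [Real.mul_rpow hA0.le (by positivity), ← Real.rpow_mul hy0.le, mul_one_div_cancel ha0.ne',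
          Real.rpow_one]
      rw [this]
      exact Real.rpow_le_rpow (by positivity) hcon.le (by positivity)
    have e6 : x ^ (1 / a) * x ^ (1 - 1 / a) = x := by
      rw [← Real.rpow_add hXpos']
      simp
    have hc0 : 0 ≤ ((2 / δ * A) ^ (1 / a) * D ^ (1 - 1 / a) * b) * k := by positivity
    calc ((2 / δ * A) ^ (1 / a) * D ^ (1 - 1 / a) * b) * k * (((r : ℝ) - 1) + 2 ^ (k + 1))
        ≤ ((2 / δ * A) ^ (1 / a) * D ^ (1 - 1 / a) * b) * k * (2 * ((r : ℝ) + 1)) :=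
          mul_le_mul_of_nonneg_left e1 hc0
      _ = (2 * k * (8 * k : ℝ) ^ (1 / a) * (2 / q : ℝ) ^ (1 - 1 / a)) * ((A ^ (1 / a) * y) * x ^ (1 - 1 / a)) := by
          rw [e3, e4, hy]; ring
      _ ≤ 1 / 4 * ((A ^ (1 / a) * y) * x ^ (1 - 1 / a)) :=
          mul_le_mul_of_nonneg_right N1 (by positivity)
      _ ≤ 1 / 4 * (x ^ (1 / a) * x ^ (1 - 1 / a)) := by
          refine mul_le_mul_of_nonneg_left ?_ (by norm_num)
          exact mul_le_mul_of_nonneg_right e5 (by positivity)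
      _ = 1 / 4 * x := by rw [e6]
  linarith

/-- Suitable parameters exist. -/
lemma params (a : ℝ) (ha : 1 < a) : ∃ k q : ℕ, 1 ≤ k ∧ 2 ≤ q ∧
    2 * k * (8 * k : ℝ) ^ (1 / a) * (2 / q : ℝ) ^ (1 - 1 / a) ≤ 1 / 4 ∧
    (2 : ℝ) ^ k * q * (2 / 2 ^ k) ^ a ≤ 1 / 4 := by
  have ha0 : 0 < a := by linarith
  set s : ℝ := 1 - 1 / a with hs
  have hs0 : 0 < s := by
    rw [hs, sub_pos, div_lt_one ha0]; exact ha
  set ε : ℝ := a - 1 with hε
  have hε0 : 0 < ε := by linarith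
  set ρ : ℝ := (2 : ℝ) ^ (-(ε * s)) with hρ
  have hρ0 : 0 < ρ := by positivity
  have hρ1 : ρ < 1 := Real.rpow_lt_one_of_one_lt_of_neg (by norm_num) (by nlinarith [mul_pos hε0 hs0])
  have h1 : Filter.Tendsto (fun n : ℕ => (n : ℝ) ^ 2 * ρ ^ n) Filter.atTop (nhds 0) :=
    tendsto_pow_const_mul_const_pow_of_abs_lt_one 2 (by rw [abs_of_pos hρ0]; exact hρ1)
  set C : ℝ := 16 * (4 * (2 : ℝ) ^ (a + 2)) ^ s with hC
  have hC0 : 0 < C := by positivity
  have h2 : Filter.Tendsto (fun n : ℕ => C * ((n : ℝ) ^ 2 * ρ ^ n)) Filter.atTop (nhds 0) := by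
    have := h1.const_mul C
    simpa using this
  have h3 : ∀ᶠ n : ℕ in Filter.atTop, C * ((n : ℝ) ^ 2 * ρ ^ n) ≤ 1 / 4 := by
    have := h2.eventually (ge_mem_nhds (show (0 : ℝ) < 1 / 4 by norm_num))
    exact this
  have h4 : Filter.Tendsto (fun n : ℕ => (2 : ℝ) ^ ((n : ℝ) * ε - a - 2)) Filter.atTop Filter.atTop := by
    have e1 : Filter.Tendsto (fun n : ℕ => (n : ℝ) * ε - a - 2) Filter.atTop Filter.atTop := by
      have : Filter.Tendsto (fun n : ℕ => (n : ℝ) * ε) Filter.atTop Filter.atTop :=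
        Filter.Tendsto.atTop_mul_const hε0 tendsto_natCast_atTop_atTop
      have := Filter.tendsto_atTop_add_const_right Filter.atTop (-a - 2) this
      refine this.congr fun n => ?_
      ring
    have e2 : (fun n : ℕ => (2 : ℝ) ^ ((n : ℝ) * ε - a - 2)) =
        fun n : ℕ => Real.exp (Real.log 2 * ((n : ℝ) * ε - a - 2)) := by
      funext n
      rw [Real.rpow_def_of_pos (by norm_num)]
    rw [e2]
    exact Real.tendsto_exp_atTop.comp (Filter.Tendsto.const_mul_atTop (Real.log_pos (by norm_num)) e1)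
  have h5 := h4.eventually_ge_atTop 2
  obtain ⟨k, hk3, hk5, hk1⟩ := (h3.and (h5.and (Filter.eventually_ge_atTop 1))).exists
  set Q : ℝ := (2 : ℝ) ^ ((k : ℝ) * ε - a - 2) with hQ
  have hQ0 : 0 < Q := by positivity
  have hfl : 2 ≤ ⌊Q⌋₊ := Nat.le_floor (by exact_mod_cast hk5)
  have hflr : (⌊Q⌋₊ : ℝ) ≤ Q := Nat.floor_le hQ0.le
  have hflr2 : Q / 2 ≤ (⌊Q⌋₊ : ℝ) := by
    have := Nat.lt_floor_add_one Q
    have h6 : (2 : ℝ) ≤ ⌊Q⌋₊ := by exact_mod_cast hfl
    linarith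
  have hk1' : (1 : ℝ) ≤ k := by exact_mod_cast hk1
  refine ⟨k, ⌊Q⌋₊, hk1, hfl, ?_, ?_⟩
  · have e1 : (8 * k : ℝ) ^ (1 / a) ≤ 8 * k := by
      calc (8 * k : ℝ) ^ (1 / a) ≤ (8 * k : ℝ) ^ (1 : ℝ) := by
            refine Real.rpow_le_rpow_of_exponent_le (by linarith) ?_
            rw [div_le_one ha0]; exact ha.le
        _ = 8 * k := Real.rpow_one _
    have e2 : (2 / (⌊Q⌋₊ : ℝ)) ^ s ≤ (4 / Q) ^ s := by
      refine Real.rpow_le_rpow (by positivity) ?_ hs0.le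
      rw [div_le_div_iff₀ (by linarith) hQ0]
      linarith
    have e3 : (4 / Q) ^ s = (4 * (2 : ℝ) ^ (a + 2)) ^ s * ρ ^ k := by
      have : 4 / Q = (4 * (2 : ℝ) ^ (a + 2)) * (2 : ℝ) ^ (-((k : ℝ) * ε)) := by
        rw [mul_assoc, ← Real.rpow_add (by norm_num), div_eq_mul_inv, hQ, ← Real.rpow_neg (by norm_num)]
        congr 2
        ring
      rw [this, Real.mul_rpow (by positivity) (by positivity)]
      congr 1
      rw [hρ, ← Real.rpow_natCast, ← Real.rpow_mul (by norm_num), ← Real.rpow_mul (by norm_num)]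
      congr 1
      ring
    calc 2 * k * (8 * k : ℝ) ^ (1 / a) * (2 / (⌊Q⌋₊ : ℝ)) ^ s
        ≤ 2 * k * (8 * k) * ((4 * (2 : ℝ) ^ (a + 2)) ^ s * ρ ^ k) := by
          rw [← e3]
          refine mul_le_mul ?_ e2 (by positivity) (by positivity)
          exact mul_le_mul_of_nonneg_left e1 (by positivity)
      _ = C * ((k : ℝ) ^ 2 * ρ ^ k) := by rw [hC]; ring
      _ ≤ 1 / 4 := hk3
  · have h2k : (0 : ℝ) < 2 ^ k := by positivity
    calc (2 : ℝ) ^ k * ⌊Q⌋₊ * (2 / 2 ^ k) ^ a ≤ (2 : ℝ) ^ k * Q * (2 / 2 ^ k) ^ a := by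
          refine mul_le_mul_of_nonneg_right ?_ (by positivity)
          exact mul_le_mul_of_nonneg_left hflr h2k.le
      _ = 1 / 4 := by
          have e1 : (2 : ℝ) / 2 ^ k = (2 : ℝ) ^ (1 - (k : ℝ)) := by
            rw [Real.rpow_sub (by norm_num), Real.rpow_one, Real.rpow_natCast]
          have e2 : (2 : ℝ) ^ k = (2 : ℝ) ^ (k : ℝ) := (Real.rpow_natCast _ _).symm
          rw [e1, ← Real.rpow_mul (by norm_num), e2, hQ, ← Real.rpow_add (by norm_num),
            ← Real.rpow_add (by norm_num)]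
          have e3 : (k : ℝ) + ((k : ℝ) * ε - a - 2) + (1 - (k : ℝ)) * a = -2 := by
            rw [hε]; ring
          rw [e3, Real.rpow_neg (by norm_num)]
          norm_num

end Pool.Agent.Helper32.PowPath
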