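import Mathlib

/-!
Basic notions for the ordered Ramsey number of powers of monotone paths:
paths in a relation, bicliques, links, and elementary counting lemmas.
-/

set_option autoImplicit false

open Finset

namespace Pool.Agent.Helper32.PowPath

variable {V : Type} [LinearOrder V]

/-- `f 0, ..., f (n-1)` is an increasing sequence in `X` such that any two members at distance
at most `t` in the sequence are related by `E` : a `t`-th power of a monotone path in `E`. -/
def IsPath (E : V → V → Prop) (t : ℕ) (X : Finset V) (n : ℕ) (f : ℕ → V) : Prop :=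
  (∀ i, i < n → f i ∈ X) ∧ (∀ i j, i < j → j < n → f i < f j) ∧
    (∀ i j, i < j → j < n → j ≤ i + t → E (f i) (f j))

/-- there is a path of length `n` in `X`. -/
def HasPath (E : V → V → Prop) (t : ℕ) (X : Finset V) (n : ℕ) : Prop :=
  ∃ f : ℕ → V, IsPath E t X n f

lemma IsPath.mono {E : V → V → Prop} {t : ℕ} {X Y : Finset V} {n m : ℕ} {f : ℕ → V}
    (h : IsPath E t X n f) (hXY : X ⊆ Y) (hm : m ≤ n) : IsPath E t Y m f := by
  obtain ⟨h1, h2, h3⟩ := h
  refine ⟨fun i hi => hXY (h1 i (lt_of_lt_of_le hi hm)), fun i j hij hj => h2 i j hij (lt_of_lt_of_le hj hm),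
    fun i j hij hj hjt => h3 i j hij (lt_of_lt_of_le hj hm) hjt⟩

lemma HasPath.mono {E : V → V → Prop} {t : ℕ} {X Y : Finset V} {n m : ℕ}
    (h : HasPath E t X n) (hXY : X ⊆ Y) (hm : m ≤ n) : HasPath E t Y m := by
  obtain ⟨f, hf⟩ := h
  exact ⟨f, hf.mono hXY hm⟩

lemma IsPath.append {E : V → V → Prop} {t : ℕ} {X Y : Finset V} {n m : ℕ} {f g : ℕ → V}
    (hf : IsPath E t X n f) (hg : IsPath E t Y m g)
    (hlt : ∀ i, i < n → ∀ j, j < m → f i < g j)
    (hE : ∀ i, i < n → n ≤ i + t → ∀ j, j < m → E (f i) (g j)) :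
    IsPath E t (X ∪ Y) (n + m) (fun i => if i < n then f i else g (i - n)) := by
  obtain ⟨f1, f2, f3⟩ := hf
  obtain ⟨g1, g2, g3⟩ := hg
  refine ⟨?_, ?_, ?_⟩
  · intro i hi
    by_cases h : i < n
    · simp only [h, if_true]
      exact mem_union_left _ (f1 i h)
    · simp only [h, if_false]
      exact mem_union_right _ (g1 _ (by omega))
  · intro i j hij hj
    by_cases h : i < n
    · by_cases h' : j < n
      · simp only [h, h', if_true]
        exact f2 i j hij h'
      · simp only [h, h', if_true, if_false]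
        exact hlt i h _ (by omega)
    · have h' : ¬ j < n := by omega
      simp only [h, h', if_false]
      exact g2 _ _ (by omega) (by omega)
  · intro i j hij hj hjt
    by_cases h : i < n
    · by_cases h' : j < n
      · simp only [h, h', if_true]
        exact f3 i j hij h' hjt
      · simp only [h, h', if_true, if_false]
        exact hE i h (by omega) _ (by omega)
    · have h' : ¬ j < n := by omega
      simp only [h, h', if_false]
      exact g3 _ _ (by omega) (by omega) (by omega)

lemma hasPath_zero [Nonempty V] (E : V → V → Prop) (t : ℕ) (X : Finset V) : HasPath E t X 0 := by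
  refine ⟨fun _ => Classical.arbitrary V, ?_, ?_, ?_⟩
  · intro i hi; omega
  · intro i j _ hj; omega
  · intro i j _ hj; omega

lemma hasPath_one {E : V → V → Prop} {t : ℕ} {X : Finset V} (hX : X.Nonempty) :
    HasPath E t X 1 := by
  obtain ⟨v, hv⟩ := hX
  refine ⟨fun _ => v, ?_, ?_, ?_⟩
  · intro i _; exact hv
  · intro i j _ hj; omega
  · intro i j _ hj; omega

/-- A path cannot be longer than the set. -/
lemma HasPath.le_card {E : V → V → Prop} {t : ℕ} {X : Finset V} {n : ℕ}
    (h : HasPath E t X n) : n ≤ X.card := by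
  obtain ⟨f, h1, h2, -⟩ := h
  have hinj : Set.InjOn f (range n : Finset ℕ) := by
    intro i hi j hj hij
    simp only [coe_range, Set.mem_Iio] at hi hj
    by_contra hne
    rcases lt_or_gt_of_ne hne with h | h
    · have := h2 i j h hj
      rw [hij] at this
      exact lt_irrefl _ this
    · have := h2 j i h hi
      rw [hij] at this
      exact lt_irrefl _ this
  have := card_le_card_of_injOn (s := range n) (t := X) f
    (fun i hi => h1 i (by simpa using hi)) hinj
  simpa using this

/-- `(L, R)` is a biclique: `L` is before `R` and `L ∪ R` is a clique for `E`. -/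
structure BC (E : V → V → Prop) (h1 h2 : ℕ) (L R : Finset V) : Prop where
  cardL : L.card = h2
  cardR : R.card = h1
  lt : ∀ u ∈ L, ∀ v ∈ R, u < v
  clL : ∀ u ∈ L, ∀ v ∈ L, u < v → E u v
  clR : ∀ u ∈ R, ∀ v ∈ R, u < v → E u v
  clLR : ∀ u ∈ L, ∀ v ∈ R, E u v

/-- there is a complete `t` by `t` bipartite `E`-graph between `A` and `B`. -/
def Ktt (E : V → V → Prop) (t : ℕ) (A B : Finset V) : Prop :=
  ∃ T, T ⊆ A ∧ ∃ T', T' ⊆ B ∧ T.card = t ∧ T'.card = t ∧ ∀ u ∈ T, ∀ v ∈ T', E u v

/-- The link relation, from the second part `R` of a biclique to the first part `L'` of a later one. -/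
def Link (E : V → V → Prop) (t : ℕ) (R L' : Finset V) : Prop :=
  (∀ u ∈ R, ∀ v ∈ L', u < v) ∧ Ktt E t R L'

/-- a strictly link-monotone labelling, with labels `< m`, of the bicliques inside the pieces `U i`. -/
def Lab (E : V → V → Prop) (t h1 h2 : ℕ) (U : ℕ → Finset V) (m : ℕ) : Prop :=
  ∃ φ : Finset V → Finset V → ℕ,
    (∀ i L R, BC E h1 h2 L R → L ⊆ U i → R ⊆ U i → φ L R < m) ∧
    (∀ i j L R L' R', BC E h1 h2 L R → L ⊆ U i → R ⊆ U i → BC E h1 h2 L' R' → L' ⊆ U j →
      R' ⊆ U j → Link E t R L' → φ L R < φ L' R')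

open Classical in
/-- A weak form of the Kovari Sos Turan theorem, for very unbalanced sides. -/
lemma kst {E : V → V → Prop} {t h1 h2 : ℕ} {A B : Finset V} (ht : 1 ≤ t)
    (hA : A.card = h1) (hB : B.card = h2) (no : ¬ Ktt E t A B) :
    ((A ×ˢ B).filter (fun p => E p.1 p.2)).card ≤ t * h2 + t * 2 ^ h1 * h1 := by
  have key : ((A ×ˢ B).filter (fun p => E p.1 p.2)).card =
      ∑ v ∈ B, (A.filter (fun u => E u v)).card := by
    rw [card_filter, sum_product_right]
    refine sum_congr rfl fun v _ => ?_
    rw [card_filter]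
  rw [key]
  set d : V → ℕ := fun v => (A.filter (fun u => E u v)).card with hd
  have hdle : ∀ v, d v ≤ h1 := fun v => by
    rw [hd, ← hA]
    exact card_filter_le _ _
  -- vertices of large degree
  have hB2 : (B.filter (fun v => t ≤ d v)).card ≤ t * 2 ^ h1 := by
    by_contra hcon
    push Not at hcon
    have hT : ∀ v, ∃ T : Finset V, t ≤ d v → (T ⊆ A.filter (fun u => E u v) ∧ T.card = t) := by
      intro v
      by_cases h : t ≤ d v
      · obtain ⟨T, hT1, hT2⟩ := exists_subset_card_eq h
        exact ⟨T, fun _ => ⟨hT1, hT2⟩⟩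
      · exact ⟨∅, fun h' => absurd h' h⟩
    choose T hT using hT
    have hmaps : ∀ v ∈ B.filter (fun v => t ≤ d v), T v ∈ A.powerset := by
      intro v hv
      rw [mem_filter] at hv
      rw [mem_powerset]
      exact (hT v hv.2).1.trans (filter_subset _ _)
    obtain ⟨y, hy, hcard⟩ := exists_le_card_fiber_of_mul_le_card_of_maps_to (n := t) hmaps
      ⟨∅, empty_mem_powerset A⟩ (by rw [card_powerset, hA, mul_comm]; exact hcon.le)
    obtain ⟨T', hT'1, hT'2⟩ := exists_subset_card_eq hcard
    obtain ⟨v0, hv0⟩ : T'.Nonempty := by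
      rw [← card_pos, hT'2]; exact ht
    have hv0' := hT'1 hv0
    rw [mem_filter, mem_filter] at hv0'
    apply no
    refine ⟨y, mem_powerset.1 hy, T', ?_, ?_, hT'2, ?_⟩
    · intro v hv
      have := hT'1 hv
      rw [mem_filter, mem_filter] at this
      exact this.1.1
    · rw [← hv0'.2]
      exact (hT v0 hv0'.1.2).2
    · intro u hu v hv
      have hv' := hT'1 hv
      rw [mem_filter, mem_filter] at hv'
      rw [← hv'.2] at hu
      have := (hT v hv'.1.2).1 hu
      rw [mem_filter] at this
      exact this.2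
  have hsplit : ∑ v ∈ B, d v = ∑ v ∈ B.filter (fun v => t ≤ d v), d v +
      ∑ v ∈ B.filter (fun v => ¬ t ≤ d v), d v := (sum_filter_add_sum_filter_not _ _ _).symm
  have h1' : ∑ v ∈ B.filter (fun v => t ≤ d v), d v ≤ t * 2 ^ h1 * h1 := by
    calc ∑ v ∈ B.filter (fun v => t ≤ d v), d v ≤ ∑ v ∈ B.filter (fun v => t ≤ d v), h1 :=
          sum_le_sum fun v _ => hdle v
      _ = (B.filter (fun v => t ≤ d v)).card * h1 := by rw [sum_const, smul_eq_mul]
      _ ≤ t * 2 ^ h1 * h1 := Nat.mul_le_mul_right _ hB2
  have h2' : ∑ v ∈ B.filter (fun v => ¬ t ≤ d v), d v ≤ t * h2 := by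
    calc ∑ v ∈ B.filter (fun v => ¬ t ≤ d v), d v ≤ ∑ v ∈ B.filter (fun v => ¬ t ≤ d v), t := by
          refine sum_le_sum fun v hv => ?_
          rw [mem_filter] at hv
          omega
      _ = (B.filter (fun v => ¬ t ≤ d v)).card * t := by rw [sum_const, smul_eq_mul]
      _ ≤ h2 * t := Nat.mul_le_mul_right _ (by rw [← hB]; exact card_filter_le _ _)
      _ = t * h2 := mul_comm _ _
  calc ∑ v ∈ B, d v = _ := hsplit
    _ ≤ t * 2 ^ h1 * h1 + t * h2 := Nat.add_le_add h1' h2'
    _ = t * h2 + t * 2 ^ h1 * h1 := add_comm _ _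

/-- Ramsey's theorem for two colours (crude bound). -/
lemma ramsey (E : V → V → Prop) : ∀ (n a b : ℕ), a + b = n → ∀ X : Finset V, 2 ^ n ≤ X.card →
    (∃ C, C ⊆ X ∧ C.card = a ∧ ∀ u ∈ C, ∀ v ∈ C, u < v → E u v) ∨
    (∃ C, C ⊆ X ∧ C.card = b ∧ ∀ u ∈ C, ∀ v ∈ C, u < v → ¬ E u v) := by
  classical
  intro n
  induction n with
  | zero =>
    intro a b hab X _
    left
    exact ⟨∅, empty_subset _, by rw [card_empty]; omega, by simp⟩
  | succ n ih =>
    intro a b hab X hX
    rcases Nat.eq_zero_or_pos a with ha | ha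
    · left
      exact ⟨∅, empty_subset _, by rw [card_empty]; omega, by simp⟩
    rcases Nat.eq_zero_or_pos b with hb | hb
    · right
      exact ⟨∅, empty_subset _, by rw [card_empty]; omega, by simp⟩
    have hne : X.Nonempty := by
      rw [← card_pos]
      exact lt_of_lt_of_le (by positivity) hX
    set v := X.min' hne with hv
    have hvX : v ∈ X := min'_mem _ _
    set Y := X.erase v with hY
    have hYcard : Y.card = X.card - 1 := card_erase_of_mem hvX
    have hlt : ∀ w ∈ Y, v < w := by
      intro w hw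
      rw [hY, mem_erase] at hw
      exact lt_of_le_of_ne (min'_le _ _ hw.2) (Ne.symm hw.1)
    have hsum : (Y.filter (fun w => E v w)).card + (Y.filter (fun w => ¬ E v w)).card = Y.card :=
      card_filter_add_card_filter_not _
    have hpow : 2 ^ (n + 1) = 2 ^ n + 2 ^ n := by ring
    have hor : 2 ^ n ≤ (Y.filter (fun w => E v w)).card ∨ 2 ^ n ≤ (Y.filter (fun w => ¬ E v w)).card := by
      by_contra hcon
      push Not at hcon
      omega
    rcases hor with h | h
    · rcases ih (a - 1) b (by omega) _ h with ⟨C, hC1, hC2, hC3⟩ | ⟨C, hC1, hC2, hC3⟩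
      · left
        have hvC : v ∉ C := fun hh => by
          have := hC1 hh
          rw [mem_filter, hY, mem_erase] at this
          exact this.1.1 rfl
        refine ⟨insert v C, ?_, ?_, ?_⟩
        · intro w hw
          rw [mem_insert] at hw
          rcases hw with rfl | hw
          · exact hvX
          · exact mem_of_mem_erase (mem_filter.1 (hC1 hw)).1
        · rw [card_insert_of_notMem hvC, hC2]; omega
        · intro u hu w hw huw
          rw [mem_insert] at hu hw
          rcases hu with rfl | hu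
          · rcases hw with rfl | hw
            · exact absurd huw (lt_irrefl _)
            · exact (mem_filter.1 (hC1 hw)).2
          · rcases hw with rfl | hw
            · exact absurd (hlt u (mem_filter.1 (hC1 hu)).1) (not_lt.2 huw.le)
            · exact hC3 u hu w hw huw
      · right
        exact ⟨C, hC1.trans ((filter_subset _ _).trans (erase_subset _ _)), hC2, hC3⟩
    · rcases ih a (b - 1) (by omega) _ h with ⟨C, hC1, hC2, hC3⟩ | ⟨C, hC1, hC2, hC3⟩
      · left
        exact ⟨C, hC1.trans ((filter_subset _ _).trans (erase_subset _ _)), hC2, hC3⟩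
      · right
        have hvC : v ∉ C := fun hh => by
          have := hC1 hh
          rw [mem_filter, hY, mem_erase] at this
          exact this.1.1 rfl
        refine ⟨insert v C, ?_, ?_, ?_⟩
        · intro w hw
          rw [mem_insert] at hw
          rcases hw with rfl | hw
          · exact hvX
          · exact mem_of_mem_erase (mem_filter.1 (hC1 hw)).1
        · rw [card_insert_of_notMem hvC, hC2]; omega
        · intro u hu w hw huw
          rw [mem_insert] at hu hw
          rcases hu with rfl | hu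
          · rcases hw with rfl | hw
            · exact absurd huw (lt_irrefl _)
            · exact (mem_filter.1 (hC1 hw)).2
          · rcases hw with rfl | hw
            · exact absurd (hlt u (mem_filter.1 (hC1 hu)).1) (not_lt.2 huw.le)
            · exact hC3 u hu w hw huw

end Pool.Agent.Helper32.PowPath
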