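import Pool.Agent.Helper32.PathBasic

/-!
Concatenation of long paths through a sequence of pieces, between which the relation is dense.
-/

set_option autoImplicit false

open Finset

namespace Pool.Agent.Helper32.PowPath

variable {V : Type} [LinearOrder V]

lemma sum_biUnion_le' {ι α : Type} [DecidableEq ι] [DecidableEq α] (s : Finset ι) (T : ι → Finset α) (f : α → ℝ)
    (hf : ∀ a, 0 ≤ f a) : ∑ a ∈ s.biUnion T, f a ≤ ∑ i ∈ s, ∑ a ∈ T i, f a := by
  induction s using Finset.induction_on with
  | empty => simp
  | insert i s hi ih =>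
    rw [biUnion_insert, sum_insert hi]
    have h1 : ∑ a ∈ T i ∪ s.biUnion T, f a + ∑ a ∈ T i ∩ s.biUnion T, f a =
      ∑ a ∈ T i, f a + ∑ a ∈ s.biUnion T, f a := sum_union_inter
    have h2 : 0 ≤ ∑ a ∈ T i ∩ s.biUnion T, f a := sum_nonneg fun a _ => hf a
    linarith

open Classical in
omit [LinearOrder V] in
lemma markov {W : Finset V} {μ d : V → ℝ} {η : ℝ} (hη : 0 < η) (hμ : ∀ v, 0 ≤ μ v) (hd : ∀ v, 0 ≤ d v)
    (h : ∑ u ∈ W, μ u * d u ≤ η ^ 2) : ∑ u ∈ W.filter (fun u => η < d u), μ u ≤ η := by
  have h1 : ∑ u ∈ W.filter (fun u => η < d u), μ u * η ≤ ∑ u ∈ W, μ u * d u := by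
    calc ∑ u ∈ W.filter (fun u => η < d u), μ u * η ≤ ∑ u ∈ W.filter (fun u => η < d u), μ u * d u := by
          refine sum_le_sum fun u hu => ?_
          rw [mem_filter] at hu
          exact mul_le_mul_of_nonneg_left hu.2.le (hμ u)
      _ ≤ ∑ u ∈ W, μ u * d u :=
          sum_le_sum_of_subset_of_nonneg (filter_subset _ _) fun u _ _ => mul_nonneg (hμ u) (hd u)
  rw [← sum_mul] at h1
  have h2 : (∑ u ∈ W.filter (fun u => η < d u), μ u) * η ≤ η * η := by nlinarith
  exact le_of_mul_le_mul_right h2 hη

open Classical in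
lemma selection [Nonempty V] (B : V → V → Prop) (t' : ℕ) (ht' : 1 ≤ t') (p : ℕ) (W : ℕ → Finset V)
    (μ : ℕ → V → ℝ) (β : ℕ → ℕ) (η : ℝ) (hη0 : 0 < η) (hη : 4 * t' * η ≤ 1)
    (hμ0 : ∀ k, k < p → ∀ v, 0 ≤ μ k v) (hμ1 : ∀ k, k < p → ∑ v ∈ W k, μ k v = 1)
    (hlt : ∀ k l, k < l → l < p → ∀ u ∈ W k, ∀ v ∈ W l, u < v)
    (hred : ∀ k l, k < l → l < p →
      ∑ u ∈ W k, μ k u * (∑ v ∈ W l, if B u v then 0 else μ l v) ≤ η ^ 2)
    (hβ1 : ∀ k, k < p → 1 ≤ β k)
    (hβ : ∀ k, k < p → ∀ Y, Y ⊆ W k → 1 / 2 ≤ ∑ v ∈ Y, μ k v → HasPath B t' Y (β k)) :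
    HasPath B t' ((range p).biUnion W) (∑ k ∈ range p, β k) := by
  set d : ℕ → V → ℝ := fun l u => ∑ v ∈ W l, if B u v then 0 else μ l v with hd
  have hd0 : ∀ l, l < p → ∀ u, 0 ≤ d l u := by
    intro l hl u
    refine sum_nonneg fun v _ => ?_
    split_ifs
    · exact le_refl _
    · exact hμ0 l hl v
  set G : ℕ → Finset V := fun k => (W k).filter
    (fun u => ∀ l, k < l → l ≤ k + t' → l < p → d l u ≤ η) with hG
  have hGW : ∀ k, G k ⊆ W k := fun k => filter_subset _ _
  -- the bad set has small measure
  have hbad : ∀ k, k < p → ∑ u ∈ (W k).filter (fun u => ¬ ∀ l, k < l → l ≤ k + t' → l < p → d l u ≤ η), μ k u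
      ≤ t' * η := by
    intro k hk
    have hsub : (W k).filter (fun u => ¬ ∀ l, k < l → l ≤ k + t' → l < p → d l u ≤ η) ⊆
        ((Ioc k (k + t')).filter (fun l => l < p)).biUnion (fun l => (W k).filter (fun u => η < d l u)) := by
      intro u hu
      rw [mem_filter] at hu
      obtain ⟨hu1, hu2⟩ := hu
      push Not at hu2
      obtain ⟨l, hl1, hl2, hl3, hl4⟩ := hu2
      rw [mem_biUnion]
      refine ⟨l, ?_, ?_⟩
      · rw [mem_filter, mem_Ioc]
        exact ⟨⟨hl1, hl2⟩, hl3⟩
      · rw [mem_filter]
        exact ⟨hu1, hl4⟩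
    calc ∑ u ∈ (W k).filter (fun u => ¬ ∀ l, k < l → l ≤ k + t' → l < p → d l u ≤ η), μ k u
        ≤ ∑ u ∈ ((Ioc k (k + t')).filter (fun l => l < p)).biUnion
            (fun l => (W k).filter (fun u => η < d l u)), μ k u :=
          sum_le_sum_of_subset_of_nonneg hsub fun u _ _ => hμ0 k hk u
      _ ≤ ∑ l ∈ (Ioc k (k + t')).filter (fun l => l < p), ∑ u ∈ (W k).filter (fun u => η < d l u), μ k u := by
          exact sum_biUnion_le' _ _ _ (fun u => hμ0 k hk u)
      _ ≤ ∑ l ∈ (Ioc k (k + t')).filter (fun l => l < p), η := by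
          refine sum_le_sum fun l hl => ?_
          rw [mem_filter, mem_Ioc] at hl
          exact markov hη0 (hμ0 k hk) (hd0 l hl.2) (hred k l hl.1.1 hl.2)
      _ = ((Ioc k (k + t')).filter (fun l => l < p)).card * η := by rw [sum_const, nsmul_eq_mul]
      _ ≤ t' * η := by
          refine mul_le_mul_of_nonneg_right ?_ hη0.le
          have : ((Ioc k (k + t')).filter (fun l => l < p)).card ≤ t' := by
            calc _ ≤ (Ioc k (k + t')).card := card_filter_le _ _
              _ = t' := by rw [Nat.card_Ioc]; omega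
          exact_mod_cast this
  have main : ∀ k, k ≤ p → ∃ f : ℕ → V, IsPath B t' ((range k).biUnion W) (∑ j ∈ range k, β j) f ∧
      ∀ i, i < ∑ j ∈ range k, β j → ∀ s, ∑ j ∈ range k, β j ≤ i + s →
        ∃ j, j < k ∧ k ≤ j + s ∧ f i ∈ G j := by
    intro k
    induction k with
    | zero =>
      intro _
      obtain ⟨f, hf⟩ := hasPath_zero B t' (∅ : Finset V)
      exact ⟨f, by simpa using hf, by intro i hi; simp at hi⟩
    | succ k ih =>
      intro hk
      obtain ⟨f, hf, hfG⟩ := ih (by omega)
      have hkp : k < p := by omega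
      set n := ∑ j ∈ range k, β j with hn
      -- the allowed set
      set Y : Finset V := (G k).filter (fun v => ∀ i, i < n → n ≤ i + t' → B (f i) v) with hY
      have hYW : Y ⊆ W k := (filter_subset _ _).trans (hGW k)
      have hmeas : 1 / 2 ≤ ∑ v ∈ Y, μ k v := by
        have h1 : ∑ v ∈ W k, μ k v = 1 := hμ1 k hkp
        have h2 : ∑ v ∈ W k, μ k v = ∑ v ∈ G k, μ k v +
          ∑ u ∈ (W k).filter (fun u => ¬ ∀ l, k < l → l ≤ k + t' → l < p → d l u ≤ η), μ k u :=
          (sum_filter_add_sum_filter_not _ _ _).symm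
        have h3 : ∑ v ∈ G k, μ k v = ∑ v ∈ Y, μ k v +
            ∑ v ∈ (G k).filter (fun v => ¬ ∀ i, i < n → n ≤ i + t' → B (f i) v), μ k v :=
          (sum_filter_add_sum_filter_not _ _ _).symm
        have h4 : ∑ v ∈ (G k).filter (fun v => ¬ ∀ i, i < n → n ≤ i + t' → B (f i) v), μ k v ≤ t' * η := by
          have hsub : (G k).filter (fun v => ¬ ∀ i, i < n → n ≤ i + t' → B (f i) v) ⊆
              ((range n).filter (fun i => n ≤ i + t')).biUnion
                (fun i => (W k).filter (fun v => ¬ B (f i) v)) := by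
            intro v hv
            rw [mem_filter] at hv
            obtain ⟨hv1, hv2⟩ := hv
            push Not at hv2
            obtain ⟨i, hi1, hi2, hi3⟩ := hv2
            rw [mem_biUnion]
            refine ⟨i, ?_, ?_⟩
            · rw [mem_filter, mem_range]; exact ⟨hi1, hi2⟩
            · rw [mem_filter]; exact ⟨hGW k hv1, hi3⟩
          calc _ ≤ ∑ v ∈ ((range n).filter (fun i => n ≤ i + t')).biUnion
                (fun i => (W k).filter (fun v => ¬ B (f i) v)), μ k v :=
                sum_le_sum_of_subset_of_nonneg hsub fun u _ _ => hμ0 k hkp u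
            _ ≤ ∑ i ∈ (range n).filter (fun i => n ≤ i + t'),
                  ∑ v ∈ (W k).filter (fun v => ¬ B (f i) v), μ k v :=
                sum_biUnion_le' _ _ _ (fun u => hμ0 k hkp u)
            _ ≤ ∑ i ∈ (range n).filter (fun i => n ≤ i + t'), η := by
                refine sum_le_sum fun i hi => ?_
                rw [mem_filter, mem_range] at hi
                obtain ⟨j, hj1, hj2, hj3⟩ := hfG i hi.1 t' hi.2
                rw [hG, mem_filter] at hj3
                have := hj3.2 k hj1 hj2 hkp
                rw [hd] at this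
                simp only at this
                rw [sum_filter]
                refine le_trans (le_of_eq ?_) this
                refine sum_congr rfl fun v _ => ?_
                by_cases hB : B (f i) v
                · simp [hB]
                · simp [hB]
            _ = ((range n).filter (fun i => n ≤ i + t')).card * η := by rw [sum_const, nsmul_eq_mul]
            _ ≤ t' * η := by
                refine mul_le_mul_of_nonneg_right ?_ hη0.le
                have : ((range n).filter (fun i => n ≤ i + t')).card ≤ t' := by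
                  calc _ ≤ (Ico (n - t') n).card := by
                        refine card_le_card fun i hi => ?_
                        rw [mem_filter, mem_range] at hi
                        rw [mem_Ico]
                        omega
                    _ ≤ t' := by rw [Nat.card_Ico]; omega
                exact_mod_cast this
        have h5 := hbad k hkp
        linarith
      obtain ⟨g, hg⟩ := hβ k hkp Y hYW hmeas
      have hsum : ∑ j ∈ range (k + 1), β j = n + β k := by rw [sum_range_succ]
      rw [hsum]
      have hfW : ∀ i, i < n → ∃ j, j < k ∧ f i ∈ W j := by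
        intro i hi
        have := hf.1 i hi
        rw [mem_biUnion] at this
        obtain ⟨j, hj1, hj2⟩ := this
        exact ⟨j, mem_range.1 hj1, hj2⟩
      refine ⟨fun i => if i < n then f i else g (i - n), ?_, ?_⟩
      · have happ := hf.append hg (by
          intro i hi j hj
          obtain ⟨l, hl1, hl2⟩ := hfW i hi
          exact hlt l k hl1 hkp _ hl2 _ (hYW (hg.1 j hj))) (by
          intro i hi hit j hj
          have := hg.1 j hj
          rw [hY, mem_filter] at this
          exact this.2 i hi hit)
        refine happ.mono ?_ (le_refl _)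
        intro v hv
        rw [mem_union] at hv
        rw [mem_biUnion]
        rcases hv with hv | hv
        · rw [mem_biUnion] at hv
          obtain ⟨j, hj1, hj2⟩ := hv
          exact ⟨j, by rw [mem_range] at hj1 ⊢; omega, hj2⟩
        · exact ⟨k, by rw [mem_range]; omega, hYW hv⟩
      · intro i hi s hs
        by_cases h : i < n
        · obtain ⟨j, hj1, hj2, hj3⟩ := hfG i h (s - 1) (by have := hβ1 k hkp; omega)
          refine ⟨j, by omega, by have := hβ1 k hkp; omega, ?_⟩
          simp only [h, if_true]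
          exact hj3
        · refine ⟨k, by omega, by omega, ?_⟩
          simp only [h, if_false]
          have := hg.1 (i - n) (by omega)
          rw [hY] at this
          exact mem_of_mem_filter _ this
  obtain ⟨f, hf, -⟩ := main p (le_refl _)
  exact ⟨f, hf⟩

end Pool.Agent.Helper32.PowPath
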