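import Pool.Agent.Helper32.Select
import Pool.Agent.Helper32.Density

/-!
The halving step: a structure with `m` labels splits in two structures with `⌈m/2⌉` labels, at the cost of a
small proportion of the mass and of the mass of the mixed pieces, which is bounded by induction.
-/

set_option autoImplicit false

open Finset

namespace Pool.Agent.Helper32.PowPath

lemma enum (M : Finset ℕ) : ∃ e : ℕ → ℕ, (∀ k, k < M.card → e k ∈ M) ∧
    (∀ k l, k < l → l < M.card → e k < e l) ∧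
    (∀ g : ℕ → ℕ, ∑ k ∈ range M.card, g (e k) = ∑ i ∈ M, g i) := by
  classical
  let o := M.orderEmbOfFin (rfl : M.card = M.card)
  refine ⟨fun k => if h : k < M.card then o ⟨k, h⟩ else 0, ?_, ?_, ?_⟩
  · intro k hk
    simp only [hk, dif_pos]
    exact orderEmbOfFin_mem M rfl _
  · intro k l hkl hl
    have hk : k < M.card := hkl.trans hl
    simp only [hk, hl, dif_pos]
    exact o.strictMono (by simpa using hkl)
  · intro g
    rw [← Fin.sum_univ_eq_sum_range (fun k => g (if h : k < M.card then o ⟨k, h⟩ else 0))]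
    have : ∀ i : Fin M.card, g (if h : (i : ℕ) < M.card then o ⟨(i : ℕ), h⟩ else 0) = g (o i) := by
      intro i
      simp
    simp_rw [this]
    have hmap : M = univ.map o.toEmbedding := (map_orderEmbOfFin_univ M rfl).symm
    conv_rhs => rw [hmap, sum_map]
    rfl

/-- The piece `W` splits, up to a proportion `δ`, in a part free of `H` and a part free of `L`. -/
def PureAt {V : Type} (δ : ℝ) (W : Finset V) (H L : Finset (Finset V)) : Prop :=
  ∃ Xm Xp : Finset V, Xm ⊆ W ∧ Xp ⊆ W ∧ (1 - δ) * (W.card : ℝ) ≤ (Xm.card : ℝ) + Xp.card ∧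
    (∀ A ∈ H, ¬ A ⊆ Xm) ∧ (∀ A ∈ L, ¬ A ⊆ Xp)

/-- The families `H` and `L` carry probability weights with a common marginal, spread on `W`. -/
def MixedAt {V : Type} [DecidableEq V] (δ : ℝ) (W : Finset V) (H L : Finset (Finset V))
    (p p' : Finset V → ℝ) : Prop :=
  (∀ A, 0 ≤ p A) ∧ (∀ A, 0 ≤ p' A) ∧ ∑ A ∈ H, p A = 1 ∧ ∑ A ∈ L, p' A = 1 ∧
    (∀ v, marg H p v = marg L p' v) ∧ (∀ v, marg H p v ≤ 1 / (δ * W.card)) ∧ 0 < W.card

lemma pure_or_mixed {V : Type} [Fintype V] [DecidableEq V] (δ : ℝ) (hδ : 0 < δ) (W : Finset V)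
    (H L : Finset (Finset V)) (hH : ∀ A ∈ H, A.Nonempty) (hL : ∀ A ∈ L, A.Nonempty)
    (hW : ¬ PureAt δ W H L) : ∃ p p', MixedAt δ W H L p p' := by
  have hempty : ∀ F : Finset (Finset V), (∀ A ∈ F, A.Nonempty) → ∀ A ∈ F, ¬ A ⊆ ∅ := by
    intro F hF A hA hsub
    have := hF A hA
    rw [subset_empty.1 hsub] at this
    exact this.ne_empty rfl
  have hcard : 0 < W.card := by
    rw [card_pos]
    by_contra hcon
    rw [not_nonempty_iff_eq_empty] at hcon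
    apply hW
    refine ⟨∅, ∅, empty_subset _, empty_subset _, ?_, hempty H hH, hempty L hL⟩
    rw [hcon]; simp
  have hcard' : (0 : ℝ) < W.card := by exact_mod_cast hcard
  have hcpos : 0 < 1 / (δ * (W.card : ℝ)) := by positivity
  rcases lp_alternative H L hH hL (1 / (δ * W.card)) hcpos with h | h
  · obtain ⟨p, p', g1, g2, g3, g4, g5, g6⟩ := h
    exact ⟨p, p', g1, g2, g3, g4, g5, g6, hcard⟩
  · exfalso
    apply hW
    obtain ⟨Z, Xm, Xp, g1, g2, g3, g4, g5⟩ := h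
    refine ⟨W ∩ Xm, W ∩ Xp, inter_subset_left, inter_subset_left, ?_, ?_, ?_⟩
    · have hsub : W ⊆ Z ∪ ((W ∩ Xm) ∪ (W ∩ Xp)) := by
        intro v hv
        rw [mem_union, mem_union, mem_inter, mem_inter]
        rcases g2 v with h | h | h
        · exact Or.inl h
        · exact Or.inr (Or.inl ⟨hv, h⟩)
        · exact Or.inr (Or.inr ⟨hv, h⟩)
      have h1' : W.card ≤ Z.card + ((W ∩ Xm).card + (W ∩ Xp).card) :=
        (card_le_card hsub).trans ((card_union_le _ _).trans (Nat.add_le_add_left (card_union_le _ _) _))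
      have h2' : (W.card : ℝ) ≤ Z.card + ((W ∩ Xm).card + (W ∩ Xp).card) := by exact_mod_cast h1'
      have h3' : (Z.card : ℝ) ≤ δ * W.card := by
        have : 1 / (δ * (W.card : ℝ)) * (Z.card : ℝ) = Z.card / (δ * W.card) := by ring
        rw [this, div_le_one (by positivity)] at g1
        exact g1
      linarith
    · intro A hA hsub
      exact g4 A hA (hsub.trans inter_subset_right)
    · intro A hA hsub
      exact g5 A hA (hsub.trans inter_subset_right)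

/-- the size of a piece, from the size of a subset of measure at least one half. -/
lemma size_bound {a A δ D x yc y κ : ℝ} (ha : 1 < a) (hA : 0 < A) (hδ : 0 < δ) (hx : 0 < x) (hxD : x ≤ D)
    (hy : 0 ≤ y) (hκ : κ = (2 / δ * A) ^ (1 / a) * D ^ (1 - 1 / a))
    (h1 : yc ≤ A * y ^ a) (h2 : (1 : ℝ) / 2 ≤ yc * (1 / (δ * x))) : x ≤ κ * y := by
  have h3' : x ≤ 2 / δ * yc := by
    rw [mul_one_div, div_le_div_iff₀ (by norm_num) (by positivity)] at h2
    rw [div_mul_eq_mul_div, le_div_iff₀ hδ]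
    linarith
  have h4' : x ≤ 2 / δ * A * y ^ a := by
    calc x ≤ 2 / δ * yc := h3'
      _ ≤ 2 / δ * (A * y ^ a) := mul_le_mul_of_nonneg_left h1 (by positivity)
      _ = 2 / δ * A * y ^ a := by ring
  have ha0 : 0 < a := by linarith
  have hexp : 0 ≤ 1 - 1 / a := by
    rw [sub_nonneg, div_le_one ha0]; linarith
  have h5' : x = x ^ (1 / a) * x ^ (1 - 1 / a) := by
    rw [← Real.rpow_add hx]
    simp
  have h6' : x ^ (1 / a) ≤ (2 / δ * A) ^ (1 / a) * y := by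
    calc x ^ (1 / a) ≤ (2 / δ * A * y ^ a) ^ (1 / a) :=
          Real.rpow_le_rpow hx.le h4' (by positivity)
      _ = (2 / δ * A) ^ (1 / a) * (y ^ a) ^ (1 / a) :=
          Real.mul_rpow (by positivity) (by positivity)
      _ = (2 / δ * A) ^ (1 / a) * y := by
          rw [← Real.rpow_mul hy, mul_one_div_cancel ha0.ne', Real.rpow_one]
  have h7' : x ^ (1 - 1 / a) ≤ D ^ (1 - 1 / a) := Real.rpow_le_rpow hx.le hxD hexp
  have hDpos : 0 < D := lt_of_lt_of_le hx hxD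
  calc x = x ^ (1 / a) * x ^ (1 - 1 / a) := h5'
    _ ≤ ((2 / δ * A) ^ (1 / a) * y) * D ^ (1 - 1 / a) :=
        mul_le_mul h6' h7' (by positivity) (by positivity)
    _ = κ * y := by rw [hκ]; ring

variable {V : Type} [LinearOrder V]

lemma Lab.mono {E : V → V → Prop} {t h1 h2 : ℕ} {U : ℕ → Finset V} {m m' : ℕ}
    (h : Lab E t h1 h2 U m) (hm : m ≤ m') : Lab E t h1 h2 U m' := by
  obtain ⟨φ, h1', h2'⟩ := h
  exact ⟨φ, fun i L R hb hL hR => lt_of_lt_of_le (h1' i L R hb hL hR) hm, h2'⟩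

lemma Lab.restrict {E : V → V → Prop} {t h1 h2 : ℕ} {U : ℕ → Finset V} {m : ℕ}
    (h : Lab E t h1 h2 U m) {i : ℕ} {Y : Finset V} (hY : Y ⊆ U i) : Lab E t h1 h2 (fun _ => Y) m := by
  obtain ⟨φ, h1', h2'⟩ := h
  refine ⟨φ, fun _ L R hb hL hR => h1' i L R hb (hL.trans hY) (hR.trans hY), ?_⟩
  intro _ _ L R L' R' hb hL hR hb' hL' hR' hl
  exact h2' i i L R L' R' hb (hL.trans hY) (hR.trans hY) hb' (hL'.trans hY) (hR'.trans hY) hl

open Classical in
/-- the second parts of the bicliques of high label. -/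
noncomputable def HF (E : V → V → Prop) (h1 h2 : ℕ) (φ : Finset V → Finset V → ℕ) (θ : ℕ) (W : Finset V) :
    Finset (Finset V) :=
  W.powerset.filter (fun R => ∃ L, L ⊆ W ∧ BC E h1 h2 L R ∧ θ ≤ φ L R)

open Classical in
/-- the first parts of the bicliques of low label. -/
noncomputable def LF (E : V → V → Prop) (h1 h2 : ℕ) (φ : Finset V → Finset V → ℕ) (θ : ℕ) (W : Finset V) :
    Finset (Finset V) :=
  W.powerset.filter (fun L => ∃ R, R ⊆ W ∧ BC E h1 h2 L R ∧ φ L R < θ)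

lemma mem_HF {E : V → V → Prop} {h1 h2 : ℕ} {φ : Finset V → Finset V → ℕ} {θ : ℕ} {W R : Finset V} :
    R ∈ HF E h1 h2 φ θ W ↔ R ⊆ W ∧ ∃ L, L ⊆ W ∧ BC E h1 h2 L R ∧ θ ≤ φ L R := by
  classical
  unfold HF
  rw [mem_filter, mem_powerset]

lemma mem_LF {E : V → V → Prop} {h1 h2 : ℕ} {φ : Finset V → Finset V → ℕ} {θ : ℕ} {W L : Finset V} :
    L ∈ LF E h1 h2 φ θ W ↔ L ⊆ W ∧ ∃ R, R ⊆ W ∧ BC E h1 h2 L R ∧ φ L R < θ := by
  classical
  unfold LF
  rw [mem_filter, mem_powerset]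

/-- the maximal length of a path contained in all subsets of measure at least one half. -/
lemma beta_exists [Nonempty V] (B : V → V → Prop) (t' : ℕ) (W : Finset V) (μ : V → ℝ)
    (htot : ∑ v ∈ W, μ v = 1) :
    ∃ β : ℕ, 1 ≤ β ∧ (∀ Y, Y ⊆ W → 1 / 2 ≤ ∑ v ∈ Y, μ v → HasPath B t' Y β) ∧
      ∃ Y, Y ⊆ W ∧ 1 / 2 ≤ ∑ v ∈ Y, μ v ∧ ¬ HasPath B t' Y (β + 1) := by
  classical
  let Q : ℕ → Prop := fun n => ∃ Y, Y ⊆ W ∧ 1 / 2 ≤ ∑ v ∈ Y, μ v ∧ ¬ HasPath B t' Y (n + 1)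
  have hQex : ∃ n, Q n := by
    refine ⟨W.card, W, Subset.refl _, by rw [htot]; norm_num, ?_⟩
    intro hp
    have := hp.le_card
    omega
  have hQ0 : ¬ Q 0 := by
    rintro ⟨Y, hY1, hY2, hY3⟩
    apply hY3
    apply hasPath_one
    by_contra hcon
    rw [not_nonempty_iff_eq_empty] at hcon
    rw [hcon, sum_empty] at hY2
    norm_num at hY2
  have hβQ : Q (Nat.find hQex) := Nat.find_spec hQex
  have hβpos : 1 ≤ Nat.find hQex := by
    rcases Nat.eq_zero_or_pos (Nat.find hQex) with h0 | h0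
    · rw [h0] at hβQ; exact absurd hβQ hQ0
    · exact h0
  refine ⟨Nat.find hQex, hβpos, ?_, hβQ⟩
  intro Y hY1 hY2
  by_contra hcon
  have : Q (Nat.find hQex - 1) := ⟨Y, hY1, hY2, by rwa [Nat.sub_add_cancel hβpos]⟩
  exact Nat.find_min hQex (by omega) this

/-- The concatenation through mixed pieces. -/
lemma concat [Nonempty V] (E : V → V → Prop) (t t' h1 h2 : ℕ) (ht : 1 ≤ t) (ht' : 1 ≤ t')
    (hh1 : 0 < h1) (hh2 : 0 < h2)
    (hη : ((t * h2 + t * 2 ^ h1 * h1 : ℕ) : ℝ) / (h1 * h2) ≤ (1 / (4 * t')) ^ 2)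
    (δ : ℝ) (X : Finset V) (b : ℕ) (hb : ¬ HasPath (fun u v => ¬ E u v) t' X (b + 1))
    (U : ℕ → Finset V) (hUX : ∀ i, U i ⊆ X) (hUlt : ∀ i j, i < j → ∀ u ∈ U i, ∀ v ∈ U j, u < v)
    (φ : Finset V → Finset V → ℕ) (θ : ℕ)
    (hφ2 : ∀ i j L R L' R', BC E h1 h2 L R → L ⊆ U i → R ⊆ U i → BC E h1 h2 L' R' → L' ⊆ U j →
      R' ⊆ U j → Link E t R L' → φ L R < φ L' R')
    (M : Finset ℕ) (p p' : ℕ → Finset V → ℝ)
    (hmix : ∀ i ∈ M, MixedAt δ (U i) (HF E h1 h2 φ θ (U i)) (LF E h1 h2 φ θ (U i)) (p i) (p' i))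
    (β : ℕ → ℕ) (hβ1 : ∀ i ∈ M, 1 ≤ β i)
    (hβ : ∀ i ∈ M, ∀ Y, Y ⊆ U i → 1 / 2 ≤ ∑ v ∈ Y, marg (HF E h1 h2 φ θ (U i)) (p i) v →
      HasPath (fun u v => ¬ E u v) t' Y (β i)) :
    ∑ i ∈ M, β i ≤ b := by
  by_contra hcon
  push Not at hcon
  obtain ⟨e, he1, he2, he3⟩ := enum M
  have hHf' : ∀ i A, A ∈ HF E h1 h2 φ θ (U i) → A ⊆ U i ∧ A.card = h1 := by
    intro i A hA
    rw [mem_HF] at hA
    obtain ⟨hA1, L, -, hL2, -⟩ := hA
    exact ⟨hA1, hL2.cardR⟩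
  have hLf' : ∀ i A, A ∈ LF E h1 h2 φ θ (U i) → A ⊆ U i ∧ A.card = h2 := by
    intro i A hA
    rw [mem_LF] at hA
    obtain ⟨hA1, L, -, hL2, -⟩ := hA
    exact ⟨hA1, hL2.cardL⟩
  have hHne : ∀ i A, A ∈ HF E h1 h2 φ θ (U i) → A.Nonempty := by
    intro i A hA
    rw [← card_pos, (hHf' i A hA).2]; exact hh1
  have hpath := selection (fun u v => ¬ E u v) t' ht' M.card (fun k => U (e k))
    (fun k => marg (HF E h1 h2 φ θ (U (e k))) (p (e k)))
    (fun k => β (e k)) (1 / (4 * t')) (by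
      have : (0 : ℝ) < t' := by exact_mod_cast ht'
      positivity) (by
      have : (0 : ℝ) < t' := by exact_mod_cast ht'
      field_simp
      exact le_refl _)
    (fun k hk v => marg_nonneg (hmix (e k) (he1 k hk)).1 v)
    (fun k hk => marg_total (hmix (e k) (he1 k hk)).2.2.1 (fun A hA => (hHf' (e k) A hA).1) (hHne (e k)))
    (fun k l hkl hl u hu v hv => hUlt (e k) (e l) (he2 k l hkl hl) u hu v hv)
    (by
      intro k l hkl hl
      have hk : k < M.card := hkl.trans hl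
      have gk := hmix (e k) (he1 k hk)
      have gl := hmix (e l) (he1 l hl)
      have hden := density (E := E) (t := t) (h1 := h1) (h2 := h2) ht hh1 hh2
        (H := HF E h1 h2 φ θ (U (e k))) (L := LF E h1 h2 φ θ (U (e l)))
        (Wk := U (e k)) (Wl := U (e l)) gk.1 gl.2.1 gk.2.2.1 gl.2.2.2.1 (hHf' (e k)) (hLf' (e l)) (by
          intro A hA B hB hK
          rw [mem_HF] at hA
          rw [mem_LF] at hB
          obtain ⟨hA1, L, hL1, hL2, hL3⟩ := hA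
          obtain ⟨hB1, R', hR1, hR2, hR3⟩ := hB
          have hlink : Link E t A B := by
            refine ⟨?_, hK⟩
            intro u hu v hv
            exact hUlt (e k) (e l) (he2 k l hkl hl) u (hA1 hu) v (hB1 hv)
          have := hφ2 (e k) (e l) L A B R' hL2 hL1 hA1 hR2 hB1 hR1 hlink
          omega)
      refine le_trans (le_of_eq ?_) (hden.trans hη)
      refine sum_congr rfl fun u _ => ?_
      congr 1
      refine sum_congr rfl fun v _ => ?_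
      rw [gl.2.2.2.2.1 v]
      by_cases hE : E u v
      · simp [hE]
      · simp [hE])
    (fun k hk => hβ1 (e k) (he1 k hk))
    (fun k hk => hβ (e k) (he1 k hk))
  apply hb
  refine hpath.mono ?_ ?_
  · intro v hv
    rw [mem_biUnion] at hv
    obtain ⟨k, -, hk⟩ := hv
    exact hUX _ hk
  · rw [he3 β]
    omega

open Classical in
lemma step [Fintype V] [Nonempty V] (E : V → V → Prop) (t t' h1 h2 : ℕ) (ht : 1 ≤ t) (ht' : 1 ≤ t')
    (hh1 : 0 < h1) (hh2 : 0 < h2)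
    (hη : ((t * h2 + t * 2 ^ h1 * h1 : ℕ) : ℝ) / (h1 * h2) ≤ (1 / (4 * t')) ^ 2)
    (a A δ D : ℝ) (ha : 1 < a) (hA : 0 < A) (hδ : 0 < δ) (hD0 : 0 ≤ D)
    (X : Finset V) (q b : ℕ) (P : ℕ → Finset V) (hPX : ∀ i, P i ⊆ X)
    (hPlt : ∀ i j, i < j → ∀ u ∈ P i, ∀ v ∈ P j, u < v)
    (hPD : ∀ i, ((P i).card : ℝ) ≤ D) (hPc : ∀ i, (P i).card < X.card)
    (hb : ¬ HasPath (fun u v => ¬ E u v) t' X (b + 1))
    (IH : ∀ Y, Y ⊆ X → Y.card < X.card → ∀ m b', Lab E t h1 h2 (fun _ => Y) m →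
      ¬ HasPath (fun u v => ¬ E u v) t' Y (b' + 1) → (Y.card : ℝ) ≤ A * (((m : ℝ) + 1) * b') ^ a)
    (U : ℕ → Finset V) (m : ℕ) (hU : ∀ i, U i ⊆ P i) (hLab : Lab E t h1 h2 U m) :
    ∃ U1 U2 : ℕ → Finset V, (∀ i, U1 i ⊆ P i) ∧ (∀ i, U2 i ⊆ P i) ∧
      Lab E t h1 h2 U1 ((m + 1) / 2) ∧ Lab E t h1 h2 U2 ((m + 1) / 2) ∧
      (1 - δ) * ∑ i ∈ range q, ((U i).card : ℝ) ≤ ∑ i ∈ range q, ((U1 i).card : ℝ) +
        ∑ i ∈ range q, ((U2 i).card : ℝ) + (2 / δ * A) ^ (1 / a) * D ^ (1 - 1 / a) * b * ((m : ℝ) + 1) := by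
  obtain ⟨φ, hφ1, hφ2⟩ := hLab
  obtain ⟨θ, hθ⟩ : ∃ θ, θ = m / 2 := ⟨_, rfl⟩
  obtain ⟨κ, hκ⟩ : ∃ κ : ℝ, κ = (2 / δ * A) ^ (1 / a) * D ^ (1 - 1 / a) := ⟨_, rfl⟩
  rw [← hκ]
  have hHne : ∀ i A, A ∈ HF E h1 h2 φ θ (U i) → A.Nonempty := by
    intro i A hA
    rw [mem_HF] at hA
    obtain ⟨hA1, L, -, hL2, -⟩ := hA
    rw [← card_pos, hL2.cardR]; exact hh1
  have hLne : ∀ i A, A ∈ LF E h1 h2 φ θ (U i) → A.Nonempty := by
    intro i A hA
    rw [mem_LF] at hA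
    obtain ⟨hA1, L, -, hL2, -⟩ := hA
    rw [← card_pos, hL2.cardL]; exact hh2
  have hempty : ∀ F : Finset (Finset V), (∀ A ∈ F, A.Nonempty) → ∀ A ∈ F, ¬ A ⊆ ∅ := by
    intro F hF A hA hsub
    have := hF A hA
    rw [subset_empty.1 hsub] at this
    exact this.ne_empty rfl
  have hchoice : ∀ i, ∃ Xm Xp : Finset V, Xm ⊆ U i ∧ Xp ⊆ U i ∧
      (PureAt δ (U i) (HF E h1 h2 φ θ (U i)) (LF E h1 h2 φ θ (U i)) →
        (1 - δ) * ((U i).card : ℝ) ≤ (Xm.card : ℝ) + Xp.card) ∧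
      (∀ A ∈ HF E h1 h2 φ θ (U i), ¬ A ⊆ Xm) ∧ (∀ A ∈ LF E h1 h2 φ θ (U i), ¬ A ⊆ Xp) := by
    intro i
    by_cases h : PureAt δ (U i) (HF E h1 h2 φ θ (U i)) (LF E h1 h2 φ θ (U i))
    · obtain ⟨Xm, Xp, g1, g2, g4, g5, g6⟩ := h
      exact ⟨Xm, Xp, g1, g2, fun _ => g4, g5, g6⟩
    · exact ⟨∅, ∅, empty_subset _, empty_subset _, fun h' => absurd h' h, hempty _ (hHne i), hempty _ (hLne i)⟩
  choose U1 U2 hU1 hU2 hU12 hUH hUL using hchoice
  refine ⟨U1, U2, fun i => (hU1 i).trans (hU i), fun i => (hU2 i).trans (hU i), ?_, ?_, ?_⟩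
  · -- labels of U1
    refine ⟨φ, ?_, ?_⟩
    · intro i L R hbc hL hR
      have : φ L R < θ := by
        by_contra hcon
        push Not at hcon
        apply hUH i R _ hR
        rw [mem_HF]
        exact ⟨hR.trans (hU1 i), L, hL.trans (hU1 i), hbc, hcon⟩
      omega
    · intro i j L R L' R' hb hL hR hb' hL' hR' hl
      exact hφ2 i j L R L' R' hb (hL.trans (hU1 i)) (hR.trans (hU1 i)) hb' (hL'.trans (hU1 j))
        (hR'.trans (hU1 j)) hl
  · -- labels of U2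
    have hge : ∀ i L R, BC E h1 h2 L R → L ⊆ U2 i → R ⊆ U2 i → θ ≤ φ L R := by
      intro i L R hbc hL hR
      by_contra hcon
      push Not at hcon
      apply hUL i L _ hL
      rw [mem_LF]
      exact ⟨hL.trans (hU2 i), R, hR.trans (hU2 i), hbc, hcon⟩
    refine ⟨fun L R => φ L R - θ, ?_, ?_⟩
    · intro i L R hbc hL hR
      have g1 := hge i L R hbc hL hR
      have g2 := hφ1 i L R hbc (hL.trans (hU2 i)) (hR.trans (hU2 i))
      show φ L R - θ < (m + 1) / 2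
      omega
    · intro i j L R L' R' hb hL hR hb' hL' hR' hl
      have g1 := hge i L R hb hL hR
      have g2 := hφ2 i j L R L' R' hb (hL.trans (hU2 i)) (hR.trans (hU2 i)) hb' (hL'.trans (hU2 j))
        (hR'.trans (hU2 j)) hl
      show φ L R - θ < φ L' R' - θ
      omega
  · -- mass
    obtain ⟨M, hM⟩ : ∃ M, M = (range q).filter (fun i => ¬ PureAt δ (U i) (HF E h1 h2 φ θ (U i)) (LF E h1 h2 φ θ (U i))) :=
      ⟨_, rfl⟩
    have hMmix : ∀ i ∈ M, ¬ PureAt δ (U i) (HF E h1 h2 φ θ (U i)) (LF E h1 h2 φ θ (U i)) := by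
      intro i hi
      rw [hM] at hi
      exact (mem_filter.1 hi).2
    have hmix' : ∀ i, ∃ (p p' : Finset V → ℝ), i ∈ M →
        MixedAt δ (U i) (HF E h1 h2 φ θ (U i)) (LF E h1 h2 φ θ (U i)) p p' := by
      intro i
      by_cases h : i ∈ M
      · obtain ⟨p, p', hp⟩ := pure_or_mixed δ hδ (U i) _ _ (hHne i) (hLne i) (hMmix i h)
        exact ⟨p, p', fun _ => hp⟩
      · exact ⟨fun _ => 0, fun _ => 0, fun h' => absurd h' h⟩
    choose p p' hpp using hmix'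
    have hβex : ∀ i, ∃ β : ℕ, i ∈ M → (1 ≤ β ∧
        (∀ Y, Y ⊆ U i → 1 / 2 ≤ ∑ v ∈ Y, marg (HF E h1 h2 φ θ (U i)) (p i) v →
          HasPath (fun u v => ¬ E u v) t' Y β) ∧
        ((U i).card : ℝ) ≤ κ * (((m : ℝ) + 1) * β)) := by
      intro i
      by_cases h : i ∈ M
      swap
      · exact ⟨0, fun h' => absurd h' h⟩
      obtain ⟨g1, g2, g3, g4, g5, g6, g7⟩ := hpp i h
      have htot : ∑ v ∈ U i, marg (HF E h1 h2 φ θ (U i)) (p i) v = 1 :=
        marg_total g3 (fun A hA => (mem_HF.1 hA).1) (hHne i)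
      obtain ⟨β, hβ1, hβ2, Y, hY1, hY2, hY3⟩ := beta_exists (fun u v => ¬ E u v) t' (U i) _ htot
      refine ⟨β, fun _ => ⟨hβ1, hβ2, ?_⟩⟩
      have hYX : Y ⊆ X := hY1.trans ((hU i).trans (hPX i))
      have hYc : Y.card < X.card :=
        lt_of_le_of_lt (card_le_card (hY1.trans (hU i))) (hPc i)
      have hL : Lab E t h1 h2 (fun _ => Y) m :=
        Lab.restrict (U := U) ⟨φ, hφ1, hφ2⟩ hY1
      have hsz := IH Y hYX hYc m β hL hY3
      have hUpos : (0 : ℝ) < (U i).card := by exact_mod_cast g7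
      have h1' : ∑ v ∈ Y, marg (HF E h1 h2 φ θ (U i)) (p i) v ≤ Y.card * (1 / (δ * (U i).card)) := by
        calc ∑ v ∈ Y, marg (HF E h1 h2 φ θ (U i)) (p i) v ≤ ∑ v ∈ Y, 1 / (δ * ((U i).card : ℝ)) :=
              sum_le_sum fun v _ => g6 v
          _ = Y.card * (1 / (δ * (U i).card)) := by rw [sum_const, nsmul_eq_mul]
      have hxD : ((U i).card : ℝ) ≤ D :=
        le_trans (Nat.cast_le.2 (card_le_card (hU i))) (hPD i)
      exact size_bound ha hA hδ hUpos hxD (by positivity) hκ hsz (hY2.trans h1')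
    choose β hβ using hβex
    -- concatenation
    have hsumβ : ∑ i ∈ M, β i ≤ b :=
      concat E t t' h1 h2 ht ht' hh1 hh2 hη δ X b hb U (fun i => (hU i).trans (hPX i))
        (fun i j hij u hu v hv => hPlt i j hij u (hU i hu) v (hU j hv)) φ θ hφ2 M p p' hpp β
        (fun i hi => (hβ i hi).1) (fun i hi => (hβ i hi).2.1)
    have hκ0 : 0 ≤ κ := by
      rw [hκ]
      positivity
    have hMsum : ∑ i ∈ M, ((U i).card : ℝ) ≤ κ * b * ((m : ℝ) + 1) := by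
      have hm0 : (0 : ℝ) ≤ (m : ℝ) + 1 := by positivity
      calc ∑ i ∈ M, ((U i).card : ℝ) ≤ ∑ i ∈ M, κ * (((m : ℝ) + 1) * β i) :=
            sum_le_sum fun i hi => (hβ i hi).2.2
        _ = (κ * ((m : ℝ) + 1)) * ∑ i ∈ M, (β i : ℝ) := by
            rw [mul_sum]
            refine sum_congr rfl fun i _ => ?_
            ring
        _ ≤ (κ * ((m : ℝ) + 1)) * b := by
            refine mul_le_mul_of_nonneg_left ?_ (mul_nonneg hκ0 hm0)
            exact_mod_cast hsumβ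
        _ = κ * b * ((m : ℝ) + 1) := by ring
    have hsplit : ∑ i ∈ range q, ((U i).card : ℝ) =
        ∑ i ∈ (range q).filter (fun i => PureAt δ (U i) (HF E h1 h2 φ θ (U i)) (LF E h1 h2 φ θ (U i))), ((U i).card : ℝ)
        + ∑ i ∈ M, ((U i).card : ℝ) := by
      rw [hM]
      exact (sum_filter_add_sum_filter_not _ _ _).symm
    have hpureSum : (1 - δ) * ∑ i ∈ (range q).filter
          (fun i => PureAt δ (U i) (HF E h1 h2 φ θ (U i)) (LF E h1 h2 φ θ (U i))), ((U i).card : ℝ) ≤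
        ∑ i ∈ range q, ((U1 i).card : ℝ) + ∑ i ∈ range q, ((U2 i).card : ℝ) := by
      rw [mul_sum, ← sum_add_distrib]
      calc ∑ i ∈ (range q).filter
            (fun i => PureAt δ (U i) (HF E h1 h2 φ θ (U i)) (LF E h1 h2 φ θ (U i))), (1 - δ) * ((U i).card : ℝ)
          ≤ ∑ i ∈ (range q).filter
            (fun i => PureAt δ (U i) (HF E h1 h2 φ θ (U i)) (LF E h1 h2 φ θ (U i))), (((U1 i).card : ℝ) + (U2 i).card) := by
            refine sum_le_sum fun i hi => ?_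
            exact hU12 i (mem_filter.1 hi).2
        _ ≤ ∑ i ∈ range q, (((U1 i).card : ℝ) + (U2 i).card) :=
            sum_le_sum_of_subset_of_nonneg (filter_subset _ _)
              fun i _ _ => add_nonneg (Nat.cast_nonneg _) (Nat.cast_nonneg _)
    have hMnn : 0 ≤ ∑ i ∈ M, ((U i).card : ℝ) := sum_nonneg fun i _ => Nat.cast_nonneg _
    have hδM : 0 ≤ δ * ∑ i ∈ M, ((U i).card : ℝ) := mul_nonneg hδ.le hMnn
    rw [hsplit, mul_add]
    have : (1 - δ) * ∑ i ∈ M, ((U i).card : ℝ) = ∑ i ∈ M, ((U i).card : ℝ) - δ * ∑ i ∈ M, ((U i).card : ℝ) := by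
      ring
    rw [this]
    linarith

end Pool.Agent.Helper32.PowPath
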